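import Pool.Agent.Y88.QP.PDefs
import Pool.Agent.H914R2.Weil

/-!
# Poles of L-functions over finitely generated fields of characteristic zero: definitions

`k` is a finitely generated field of characteristic zero, `K` is the algebraic closure of `ℚ` in `k`
(a number field), `Γ` is the Galois group of `k` and `π` its projection to the Galois group of `K`;
the kernel of `π` is the geometric Galois group. The varieties are considered over an algebraic
closure of `k`, with the action of `Γ` on their cohomology.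
-/

open CategoryTheory AlgebraicGeometry NumberField IsDedekindDomain

universe u v w

namespace Pool.Agent.Y88.QP

open Pool.Agent.W401.Cheb

/-- The cohomology algebra `A` of a variety of dimension `dim` with an action of the group `Γ`:
`gr i` is the cohomology in degree `i`, `tr` the orientation and `cl j` the set of the classes of
algebraic cycles of codimension `j`. -/
structure Coh (F : Type u) [Field F] (Γ : Type w) [Group Γ] where
  /-- the cohomology -/
  A : Type v
  [ring : Ring A]
  [algebra : Algebra F A]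
  [finite : Module.Finite F A]
  /-- the cohomology in degree `i` -/
  gr : ℕ → Submodule F A
  /-- the dimension of the variety -/
  dim : ℕ
  /-- the orientation -/
  tr : A →ₗ[F] F
  /-- the classes of cycles -/
  cl : ℕ → Set A
  /-- the action -/
  act : Γ →* (A ≃ₐ[F] A)

attribute [instance] Coh.ring Coh.algebra Coh.finite

section

variable {F : Type u} [Field F] {Γ : Type w} [Group Γ] {K : Type} [Field K] [NumberField K]

/-- The element `g a`. -/
def Coh.on (H : Coh.{u, v} F Γ) (g : Γ) (a : H.A) : H.A := H.act g a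

/-- The action of `g` as a linear map. -/
def Coh.lin (H : Coh.{u, v} F Γ) (g : Γ) : H.A →ₗ[F] H.A := (H.act g).toLinearMap

/-- `g a = χ g ^ j • a` for all `g ∈ Δ`; that is, `a` is fixed by `Δ` after the Tate twist. -/
def FixedBy (χ : Γ →* Fˣ) (Δ : Subgroup Γ) (H : Coh.{u, v} F Γ) (j : ℕ) (a : H.A) : Prop :=
  ∀ g ∈ Δ, H.on g a = (χ g : F) ^ j • a

/-- The subspace of the elements of `H^(2j)(Y)(j)` which are fixed by `Δ`. -/
def fixedPart (χ : Γ →* Fˣ) (Δ : Subgroup Γ) (H : Coh.{u, v} F Γ) (j : ℕ) : Submodule F H.A :=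
  Submodule.span F {a | a ∈ H.gr (2 * j) ∧ FixedBy χ Δ H j a}

/-- The classes of cycles of codimension `j` which are fixed by `Δ`. -/
def fixedClasses (χ : Γ →* Fˣ) (Δ : Subgroup Γ) (H : Coh.{u, v} F Γ) (j : ℕ) : Set H.A :=
  {a | a ∈ H.cl j ∧ FixedBy χ Δ H j a}

/-- All elements of `H^(2j)(Y)(j)` fixed by `Δ` are linear combinations of classes of algebraic cycles
fixed by `Δ`. -/
def TateAt (χ : Γ →* Fˣ) (Δ : Subgroup Γ) (H : Coh.{u, v} F Γ) (j : ℕ) : Prop :=
  fixedPart χ Δ H j ≤ Submodule.span F (fixedClasses χ Δ H j)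

/-- `Δ'` is a subgroup of finite index of `Δ`. -/
def FinIn (Δ' Δ : Subgroup Γ) : Prop := Δ' ≤ Δ ∧ (Δ'.subgroupOf Δ).FiniteIndex

/-- The Tate conjecture for `Δ`: all elements of `H^(2j)(Y)(j)` fixed by a subgroup of finite index of
`Δ` are linear combinations of classes of algebraic cycles. -/
def TateAll (χ : Γ →* Fˣ) (Δ : Subgroup Γ) (H : Coh.{u, v} F Γ) : Prop :=
  ∀ j, ∀ c ∈ H.gr (2 * j), ∀ Δ', FinIn Δ' Δ → FixedBy χ Δ' H j c →
    c ∈ Submodule.span F (H.cl j)

/-- The formal properties of the action of a Galois group on cohomology: it respects the degrees,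
acts by `χ ^ dim` on the orientation and permutes the classes of cycles, up to the Tate twists; every
class of a cycle is fixed by a subgroup of finite index. -/
structure IsGalois (χ : Γ →* Fˣ) (H : Coh.{u, v} F Γ) : Prop where
  gr_mem : ∀ g i, ∀ a ∈ H.gr i, H.on g a ∈ H.gr i
  tr_act : ∀ g a, H.tr (H.on g a) = (χ g : F) ^ H.dim * H.tr a
  cl_act : ∀ g j, ∀ c ∈ H.cl j, ∃ c' ∈ H.cl j, H.on g c = (χ g : F) ^ j • c'
  cl_fix : ∀ j, ∀ c ∈ H.cl j, ∃ Δ, FinIn Δ ⊤ ∧ FixedBy χ Δ H j c

/-- The transcendental cohomology: the subspace of the elements orthogonal to all classes of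
cycles. -/
def transcendental (H : Coh.{u, v} F Γ) : Submodule F H.A :=
  Submodule.span F {a | ∀ j, ∀ c ∈ H.cl j, H.tr (a * c) = 0}

/-- The group acts like a Galois group; numerical and homological equivalence of cycles coincide; the
transcendental cohomology is in the middle degree and irreducible under all subgroups of finite
index of `Δ`; and `g ∈ Δ` acts by the Picard-Lefschetz formula with a transcendental vanishing
cycle `δ`, and trivially on the Tate twist. -/
structure Nodal (χ : Γ →* Fˣ) (Δ : Subgroup Γ) (H : Coh.{u, v} F Γ) (g : Γ) : Prop where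
  galois : IsGalois χ H
  homEqNum : ∀ j ≤ H.dim, ∀ c ∈ H.cl j, (∀ c' ∈ H.cl (H.dim - j), H.tr (c * c') = 0) → c = 0
  middle : transcendental H ≤ H.gr H.dim
  irreducible : ∀ Δ', FinIn Δ' Δ → ∀ V ≤ transcendental H,
    (∀ h ∈ Δ', ∀ a ∈ V, H.on h a ∈ V) → V = ⊥ ∨ V = transcendental H
  mem : g ∈ Δ ∧ χ g = 1
  picardLefschetz : ∃ δ ∈ transcendental H, δ ≠ 0 ∧ ∃ c : F, c ≠ 0 ∧
    ∀ a, H.on g a = a + (c * H.tr (δ * a)) • δ

/-- The `H i` satisfy `Nodal` with the elements `g i`, which act trivially on `H₀` and on the `H j`,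
`j ≠ i`; if some `H i` is of even dimension the coefficient field contains only finitely many
`ζ + ζ⁻¹`, `ζ` a root of unity (as all finite extensions of `ℚ_ℓ`). -/
structure NodalFamily (χ : Γ →* Fˣ) (Δ : Subgroup Γ) {J : Type} (H : J → Coh.{u, v} F Γ)
    (H₀ : Coh.{u, v} F Γ) (g : J → Γ) : Prop where
  nodal : ∀ i, Nodal χ Δ (H i) (g i)
  triv_base : ∀ i a, H₀.on (g i) a = a
  triv_other : ∀ i j, j ≠ i → ∀ a, (H j).on (g i) a = a
  few : (∃ i, Even (H i).dim) → {y : F | ∃ ζ : AlgebraicClosure F, (∃ m ≥ 1, ζ ^ m = 1) ∧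
    algebraMap F (AlgebraicClosure F) y = ζ + ζ⁻¹}.Finite

/-- `π` is surjective, and for almost all primes `v` the elements above the geometric Frobenius
elements at `v` act on the Tate twist by `N(v)`. -/
structure IsArith (π : Γ →* GK K) (χ : Γ →* Fˣ) : Prop where
  surjective : Function.Surjective π
  cyclotomic : ∃ S : Set (HeightOneSpectrum (𝓞 K)), S.Finite ∧ ∀ v ∉ S, ∀ g : Γ,
    IsFrob v (π g)⁻¹ → (χ g : F) = (Ideal.absNorm v.asIdeal : F)

/-- The group acts like a Galois group; the classes of cycles of codimension `j` fixed by the kernel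
of `π` are fixed by the elements above an open subgroup, and classes of cycles of codimension `j`
which are linearly independent over `ℤ` are linearly independent over `F`. -/
structure CycleAction (π : Γ →* GK K) (χ : Γ →* Fˣ) (H : Coh.{u, v} F Γ) (j : ℕ) : Prop where
  galois : IsGalois χ H
  fix_open : ∀ c ∈ fixedClasses χ π.ker H j,
    ∃ V : Subgroup (GK K), IsOpen (V : Set (GK K)) ∧ FixedBy χ (V.comap π) H j c
  indep : ∀ (n : ℕ) (c : Fin n → H.A), (∀ i, c i ∈ H.cl j) → LinearIndependent ℤ c →
    LinearIndependent F c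

/-- The eigenvalues of the Frobenius element at the point `y` on `H^(2j)(Y)`. -/
noncomputable def frobEigs (ι : F →+* ℂ) (U : Points K Γ) (H : Coh.{u, v} F Γ) (j : ℕ)
    (y : U.P) : Multiset ℂ :=
  eigs ι (H.gr (2 * j)) (H.lin (U.frob y))

/-- Deligne's theorems for `V = H^(2j)(Y)` and a model over `U`: the eigenvalues of the Frobenius
element at a point with `q` elements in the residue field have absolute value `q ^ j`, and for almost
all primes `v` the sum of the traces of the Frobenius elements at the points of degree one over `v` is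
`N(v) ^ D` times the trace of the elements above the Frobenius at `v` on the classes fixed by the
kernel of `π`, with an error of `O(N(v) ^ (j + D - 1/2))`. -/
structure DeligneBounds (π : Γ →* GK K) (χ : Γ →* Fˣ) (ι : F →+* ℂ) (U : Points K Γ) (D : ℕ)
    (H : Coh.{u, v} F Γ) (j : ℕ) : Prop where
  weight : ∀ y, ∀ z ∈ frobEigs ι U H j y, ‖z‖ = (U.norm y : ℝ) ^ j
  points : ∃ (S : Set (HeightOneSpectrum (𝓞 K))) (C : ℝ), S.Finite ∧ ∀ v ∉ S, ∀ g : Γ,
    IsFrob v (π g)⁻¹ →
      ‖pointSum U (frobEigs ι U H j) v - (Ideal.absNorm v.asIdeal : ℂ) ^ D *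
        (eigs ι (fixedPart χ π.ker H j) (H.lin g)).sum‖ ≤
      C * (Ideal.absNorm v.asIdeal : ℝ) ^ ((j + D : ℝ) - 1 / 2)

/-- The `L`-function of `H^(2j)(Y)` over the scheme `U`. -/
noncomputable def LFun (ι : F →+* ℂ) (U : Points K Γ) (H : Coh.{u, v} F Γ) (j : ℕ) (s : ℂ) : ℂ :=
  ∏' y, factor U (frobEigs ι U H j) s y

/-- The Euler product of the `L`-function of `H^(2j)(Y)` over `U` converges absolutely for real
`s > j + D + 1`, and the order of its pole at `j + D + 1` is the rank of the group of the classes of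
cycles of codimension `j` fixed by `Γ`. -/
def PoleOrderIsRank (χ : Γ →* Fˣ) (ι : F →+* ℂ) (U : Points K Γ) (D : ℕ) (H : Coh.{u, v} F Γ)
    (j : ℕ) : Prop :=
  (∀ s : ℝ, (j + D + 1 : ℝ) < s → Multipliable (factor U (frobEigs ι U H j) (s : ℂ))) ∧
    ∃ c : ℂ, c ≠ 0 ∧ Filter.Tendsto
      (fun s : ℝ => ((s - (j + D + 1) : ℝ) : ℂ) ^ Set.finrank ℤ (fixedClasses χ ⊤ H j) *
        LFun ι U H j (s : ℂ))
      (nhdsWithin (j + D + 1 : ℝ) (Set.Ioi (j + D + 1 : ℝ))) (nhds c)

end

open Pool.Agent.H914 Pool.Agent.H914.VarClass Pool.Agent.H914.VarClass.Obj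
  Pool.Agent.H914.WeilCohomology

variable {k : Type u} [Field k] {𝒱 : VarClass k}

/-- `P` is the product `X × (X × (⋯ × X))` of copies of `X`, and `T` is the set of the projections to
the factors. -/
inductive IsPower (X : 𝒱.Obj) : (P : 𝒱.Obj) → Set (P ⟶ X) → Prop
  | one : IsPower X X {𝟙 X}
  | succ {P T} : IsPower X P T →
      IsPower X (X.prod P) (insert (fst X P) {p | ∃ q ∈ T, p = snd X P ≫ q})

variable {ops : CycleOps 𝒱}

/-- A variety with an action of the group `Γ` on its cohomology algebra. -/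
structure Var (W : WeilCohomology.{u, v} ops) (Γ : Type w) [Group Γ] where
  /-- the variety -/
  X : 𝒱.Obj
  /-- the action -/
  act : Γ →* (W.H X ≃ₐ[W.K] W.H X)

variable {W : WeilCohomology.{u, v} ops} {Γ : Type w} [Group Γ]

/-- The cohomology of a variety with an action of `Γ`. -/
def coh (Y : Var W Γ) : Coh.{v, v} W.K Γ where
  A := W.H Y.X
  finite := W.finite Y.X
  gr := W.gr Y.X
  dim := Y.X.dim
  tr := W.tr Y.X
  cl := fun j => {c | ∃ z, Y.X.IsCyc j z ∧ W.cl Y.X z = c}
  act := Y.act

/-- The morphism `f` is compatible with the actions on the cohomology. -/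
def Equivariant (Y X : Var W Γ) (f : Y.X ⟶ X.X) : Prop :=
  ∀ g a, (coh Y).on g (W.map f a) = W.map f ((coh X).on g a)

/-- The varieties `Y = X_1^(n_1) × (X_2^(n_2) × ( ⋯ × Z))`, with arbitrary exponents `n_i ≥ 1`, where
the `X_i` are pairwise different members of the family `X`; the actions of `Γ` are compatible with
the projections. The set of the indices which are used is `S`. -/
inductive Tower {J : Type} (X : J → Var W Γ) (Z : Var W Γ) : Set J → Var W Γ → Prop
  | base : Tower X Z ∅ Z
  | step {S Y Y'} (i : J) (P T) (e : Y'.X = Obj.prod P Y.X) : Tower X Z S Y → i ∉ S →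
      IsPower (X i).X P T → (∀ p ∈ T, Equivariant Y' (X i) (eqToHom e ≫ fst P Y.X ≫ p)) →
      Equivariant Y' Y (eqToHom e ≫ snd P Y.X) → Tower X Z (insert i S) Y'

/-- `Y` is a product of powers, with arbitrary exponents, of different members of a family of
varieties whose cohomology satisfies the conditions `NodalFamily` for the geometric Galois group
`Δ`, and of a variety which satisfies the Tate conjecture for `Δ`. -/
def NodalTower (χ : Γ →* W.Kˣ) (Δ : Subgroup Γ) (Y : Var W Γ) : Prop :=
  ∃ (J : Type) (X : J → Var W Γ) (Z : Var W Γ) (g : J → Γ) (S : Set J),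
    NodalFamily χ Δ (fun i => coh (X i)) (coh Z) g ∧ TateAll χ Δ (coh Z) ∧ Tower X Z S Y

end Pool.Agent.Y88.QP
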