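import Pool.Agent.W401.Cheb.AbsDefs

/-! Closed points of schemes over the integers of a number field, and Euler products: definitions. -/

set_option autoImplicit false

namespace Pool.Agent.Y88.QP

open NumberField IsDedekindDomain

/-- The closed points of a scheme of finite type over the ring of integers of `K`, with geometric
Frobenius elements in the group `Γ`. -/
structure Points (K : Type) [Field K] [NumberField K] (Γ : Type*) where
  /-- the set of the closed points -/
  P : Type
  /-- the prime of `K` below a point -/
  base : P → HeightOneSpectrum (𝓞 K)
  /-- the degree of the residue field of a point over the residue field of the prime below it -/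
  deg : P → ℕ
  /-- a geometric Frobenius element at the point -/
  frob : P → Γ

variable {K : Type} [Field K] [NumberField K] {Γ : Type*}

/-- The number of elements of the residue field of the point `y`. -/
noncomputable def Points.norm (U : Points K Γ) (y : U.P) : ℕ :=
  Ideal.absNorm (U.base y).asIdeal ^ U.deg y

/-- The scheme has relative dimension at most `D` over the ring of integers of `K`: there are
`O(q ^ (n D))` points of degree `n` over a prime of norm `q`, uniformly. -/
structure Points.IsDim (U : Points K Γ) (D : ℕ) : Prop where
  deg_pos : ∀ y, 0 < U.deg y
  finite : ∀ v n, {y | U.base y = v ∧ U.deg y = n}.Finite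
  count : ∃ C : ℝ, ∀ v n, ({y | U.base y = v ∧ U.deg y = n}.ncard : ℝ) ≤
    C * (Ideal.absNorm v.asIdeal : ℝ) ^ (n * D)

/-- The factor at `y` of the Euler product: the product of the `(1 - z N(y) ^ (-s))⁻¹` over the
elements `z` of the multiset `e y`. -/
noncomputable def factor (U : Points K Γ) (e : U.P → Multiset ℂ) (s : ℂ) (y : U.P) : ℂ :=
  ((e y).map fun z => (1 - z * (U.norm y : ℂ) ^ (-s))⁻¹).prod

/-- The sum of all the elements of the multisets `e y` for the points `y` over `v` of degree `1`. -/
noncomputable def pointSum (U : Points K Γ) (e : U.P → Multiset ℂ) (v : HeightOneSpectrum (𝓞 K)) :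
    ℂ :=
  ∑' y : {y // U.base y = v ∧ U.deg y = 1}, (e y).sum

/-- The eigenvalues, with multiplicities, of the operator `f` on the subspace `V`, if it is stable
under `f`, mapped to the complex numbers by `ι`. -/
noncomputable def eigs {F : Type*} [Field F] {A : Type*} [AddCommGroup A] [Module F A]
    [Module.Finite F A] (ι : F →+* ℂ) (V : Submodule F A) (f : A →ₗ[F] A) : Multiset ℂ := by
  classical exact if h : ∀ a ∈ V, f a ∈ V then ((f.restrict h).charpoly.map ι).roots else 0

end Pool.Agent.Y88.QP
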