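import Pool.Agent.Y88.QP.Lim
import Pool.Agent.Y88.QP.PDefs

/-! Euler products over the closed points of a scheme over the integers of a number field, near the
edge of the half plane of convergence. -/

set_option autoImplicit false

namespace Pool.Agent.Y88.QP

open NumberField IsDedekindDomain Filter Topology
open Pool.Agent.H921R2.TatePole (nm two_le_nm nm_summable nm_rpow_le_half)

section
variable {K : Type} [Field K] [NumberField K]

/-- the weights of the pairs of a prime and a degree -/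
noncomputable def wt (m : ℕ) (x : ℝ) (p : HeightOneSpectrum (𝓞 K) × ℕ) : ℝ :=
  if p.2 < m then 0 else ((nm p.1 : ℝ) ^ (-x)) ^ p.2

theorem wt_summable {m : ℕ} {x : ℝ} (hx1 : 1 ≤ x) (hm : 1 < m * x) :
    Summable (wt (K := K) m x) := by
  have h1 : Summable fun v : HeightOneSpectrum (𝓞 K) => (2 : ℝ) ^ m * ((nm v : ℝ) ^ (-x)) ^ m := by
    refine Summable.mul_left _ ?_
    have e : ∀ v : HeightOneSpectrum (𝓞 K), ((nm v : ℝ) ^ (-x)) ^ m = (nm v : ℝ) ^ (-(m * x)) :=
      fun v => by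
        rw [← Real.rpow_natCast, ← Real.rpow_mul (nm_pos v).le]
        congr 1
        ring
    simp only [e]
    exact nm_summable hm
  have h2 : Summable fun n : ℕ => (1 / 2 : ℝ) ^ n := summable_geometric_two
  have h3 := h1.mul_of_nonneg h2 (fun v => by positivity) (fun n => by positivity)
  refine Summable.of_nonneg_of_le (fun p => ?_) (fun p => ?_) h3
  · unfold wt
    split_ifs
    · exact le_rfl
    · positivity
  · obtain ⟨v, n⟩ := p
    unfold wt
    simp only
    split_ifs with h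
    · positivity
    · obtain ⟨k, rfl⟩ := Nat.exists_eq_add_of_le (not_lt.1 h)
      have hr : 0 ≤ (nm v : ℝ) ^ (-x) := by positivity
      have hr2 : (nm v : ℝ) ^ (-x) ≤ 1 / 2 := nm_rpow_le_half v hx1
      generalize (nm v : ℝ) ^ (-x) = r at hr hr2
      have e1 : (2 : ℝ) ^ m * r ^ m * (1 / 2) ^ (m + k) = r ^ m * (1 / 2) ^ k := by
        rw [pow_add, one_div, inv_pow]
        field_simp
      rw [e1, pow_add]
      exact mul_le_mul_of_nonneg_left (pow_le_pow_left₀ hr hr2 k) (by positivity)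

variable {Γ : Type*} {U : Points K Γ} {D : ℕ}

theorem pts_summable (hU : U.IsDim D) {w : HeightOneSpectrum (𝓞 K) × ℕ → ℝ} (hw0 : ∀ p, 0 ≤ w p)
    (hw : Summable fun p : HeightOneSpectrum (𝓞 K) × ℕ => (nm p.1 : ℝ) ^ (p.2 * D) * w p) :
    Summable fun y : U.P => w (U.base y, U.deg y) := by
  classical
  obtain ⟨C, hC⟩ := hU.count
  refine summable_of_sum_le (fun y => hw0 _)
    (c := |C| * ∑' p : HeightOneSpectrum (𝓞 K) × ℕ, (nm p.1 : ℝ) ^ (p.2 * D) * w p) fun G => ?_
  have h1 : ∀ p : HeightOneSpectrum (𝓞 K) × ℕ,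
      (((G.filter fun y => (U.base y, U.deg y) = p).card : ℕ) : ℝ) ≤
        |C| * (nm p.1 : ℝ) ^ (p.2 * D) := by
    intro p
    have h2 : ((G.filter fun y => (U.base y, U.deg y) = p : Finset U.P) : Set U.P) ⊆
        {y | U.base y = p.1 ∧ U.deg y = p.2} := by
      intro y hy
      rw [Finset.mem_coe, Finset.mem_filter] at hy
      rw [← hy.2]
      exact ⟨rfl, rfl⟩
    have h3 := Set.ncard_le_ncard h2 (hU.finite _ _)
    rw [Set.ncard_coe_finset] at h3
    refine (Nat.cast_le.2 h3).trans ((hC p.1 p.2).trans ?_)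
    exact mul_le_mul_of_nonneg_right (le_abs_self C) (by positivity)
  calc ∑ y ∈ G, w (U.base y, U.deg y)
      = ∑ p ∈ G.image (fun y => (U.base y, U.deg y)),
          (G.filter fun y => (U.base y, U.deg y) = p).card • w p :=
        Finset.sum_comp w fun y => (U.base y, U.deg y)
    _ ≤ ∑ p ∈ G.image (fun y => (U.base y, U.deg y)), |C| * ((nm p.1 : ℝ) ^ (p.2 * D) * w p) := by
        refine Finset.sum_le_sum fun p _ => ?_
        rw [nsmul_eq_mul, ← mul_assoc]
        exact mul_le_mul_of_nonneg_right (h1 p) (hw0 p)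
    _ = |C| * ∑ p ∈ G.image (fun y => (U.base y, U.deg y)), (nm p.1 : ℝ) ^ (p.2 * D) * w p := by
        rw [Finset.mul_sum]
    _ ≤ _ := mul_le_mul_of_nonneg_left
        (hw.sum_le_tsum _ fun p _ => mul_nonneg (by positivity) (hw0 p)) (abs_nonneg _)

theorem norm_eq (y : U.P) : (U.norm y : ℝ) = (nm (U.base y) : ℝ) ^ U.deg y := by
  unfold Points.norm nm
  push_cast
  rfl

theorem norm_pos (y : U.P) : (0 : ℝ) < U.norm y := by
  rw [norm_eq]
  exact pow_pos (nm_pos _) _

theorem norm_one_le (y : U.P) : (1 : ℝ) ≤ U.norm y := by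
  rw [norm_eq]
  exact one_le_pow₀ (nm_one_le _)

theorem norm_two_le (hU : U.IsDim D) (y : U.P) : (2 : ℝ) ≤ U.norm y := by
  rw [norm_eq]
  have h1 : (2 : ℝ) ≤ nm (U.base y) := by exact_mod_cast two_le_nm _
  calc (2 : ℝ) ≤ nm (U.base y) := h1
    _ = (nm (U.base y) : ℝ) ^ 1 := (pow_one _).symm
    _ ≤ _ := pow_le_pow_right₀ (nm_one_le _) (hU.deg_pos y)

/-- the bounds for the terms -/
noncomputable def bd (U : Points K Γ) (m : ℕ) (s : ℝ) (y : U.P) : ℝ :=
  if U.deg y < m then 0 else (U.norm y : ℝ) ^ (-s)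

theorem bd_nonneg (m : ℕ) (s : ℝ) (y : U.P) : 0 ≤ bd U m s y := by
  unfold bd
  split_ifs
  · exact le_rfl
  · positivity

theorem bd_summable (hU : U.IsDim D) {m : ℕ} {x : ℝ} (hx1 : 1 ≤ x) (hm : 1 < m * x) :
    Summable (bd U m (D + x)) := by
  have h := pts_summable hU (w := fun p => if p.2 < m then 0 else
    ((nm p.1 : ℝ) ^ (-(D + x))) ^ p.2) (fun p => by
      split_ifs
      · exact le_rfl
      · positivity) (by
      refine (wt_summable (K := K) hx1 hm).congr fun p => ?_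
      unfold wt
      split_ifs
      · rw [mul_zero]
      · rw [mul_comm p.2 D, pow_mul, ← mul_pow]
        congr 1
        rw [← Real.rpow_natCast, ← Real.rpow_add (nm_pos _)]
        congr 1
        ring)
  refine h.congr fun y => ?_
  unfold bd
  simp only
  split_ifs
  · rfl
  · rw [norm_eq, ← Real.rpow_natCast, ← Real.rpow_mul (nm_pos _).le, ← Real.rpow_natCast,
      ← Real.rpow_mul (nm_pos _).le]
    congr 1
    ring

theorem msum_le {m : Multiset ℂ} {f : ℂ → ℂ} {c : ℝ} {b : ℕ} (hc : 0 ≤ c)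
    (hb : Multiset.card m ≤ b) (h : ∀ z ∈ m, ‖f z‖ ≤ c) : ‖(m.map f).sum‖ ≤ b * c := by
  have h1 := norm_multiset_sum_le (m.map f)
  have h2 : ((m.map f).map fun x => ‖x‖).sum ≤ Multiset.card ((m.map f).map fun x => ‖x‖) • c := by
    refine Multiset.sum_le_card_nsmul _ _ fun x hx => ?_
    rw [Multiset.mem_map] at hx
    obtain ⟨w, hw, rfl⟩ := hx
    rw [Multiset.mem_map] at hw
    obtain ⟨z, hz, rfl⟩ := hw
    exact h z hz
  rw [Multiset.card_map, Multiset.card_map, nsmul_eq_mul] at h2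
  exact h1.trans (h2.trans (mul_le_mul_of_nonneg_right (by exact_mod_cast hb) hc))

theorem log_bound {u : ℂ} (hu : ‖u‖ ≤ 1 / 2) : ‖-Complex.log (1 - u) - u‖ ≤ ‖u‖ ^ 2 := by
  have h1 := Complex.norm_log_one_add_sub_self_le (z := -u) (by rw [norm_neg]; linarith)
  rw [norm_neg] at h1
  have e : -Complex.log (1 - u) - u = -(Complex.log (1 + -u) - -u) := by
    rw [← sub_eq_add_neg]
    ring
  rw [e, norm_neg]
  refine h1.trans ?_
  have h2 : (1 - ‖u‖)⁻¹ ≤ 2 := by
    rw [inv_le_comm₀ (by linarith) (by norm_num)]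
    linarith
  nlinarith [sq_nonneg ‖u‖]

/-! ## The logarithms of the factors -/

variable (U) in
/-- the power of the norm -/
noncomputable def kap (s : ℝ) (y : U.P) : ℝ := (U.norm y : ℝ) ^ (-s)

theorem kap_nonneg (s : ℝ) (y : U.P) : 0 ≤ kap U s y := by
  unfold kap
  positivity

theorem kap_ofReal (s : ℝ) (y : U.P) : (U.norm y : ℂ) ^ (-(s : ℂ)) = (kap U s y : ℂ) := by
  unfold kap
  rw [Complex.ofReal_cpow (norm_pos y).le]
  push_cast
  rfl

variable (e : U.P → Multiset ℂ)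

/-- the logarithm of the factor -/
noncomputable def ell (s : ℝ) (y : U.P) : ℂ :=
  ((e y).map fun z => -Complex.log (1 - z * (kap U s y : ℂ))).sum

/-- the remainder -/
noncomputable def rem (s : ℝ) (y : U.P) : ℂ :=
  ((e y).map fun z => -Complex.log (1 - z * (kap U s y : ℂ)) - z * (kap U s y : ℂ)).sum

theorem ell_eq (s : ℝ) (y : U.P) : ell e s y = (e y).sum * (kap U s y : ℂ) + rem e s y := by
  unfold ell rem
  have h1 : (e y).sum * (kap U s y : ℂ) = ((e y).map fun z => z * (kap U s y : ℂ)).sum := by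
    rw [Multiset.sum_map_mul_right, Multiset.map_id']
  rw [h1, ← Multiset.sum_map_add]
  congr 1
  exact Multiset.map_congr rfl fun z _ => by ring

variable {e} {j b : ℕ}

theorem u_le (hw : ∀ y, ∀ z ∈ e y, ‖z‖ ≤ (U.norm y : ℝ) ^ j) {x : ℝ} (y : U.P) {z : ℂ}
    (hz : z ∈ e y) : ‖z * (kap U (j + D + x) y : ℂ)‖ ≤ (U.norm y : ℝ) ^ (-(D + x)) := by
  rw [norm_mul, Complex.norm_real, Real.norm_eq_abs, abs_of_nonneg (kap_nonneg _ _)]
  refine (mul_le_mul_of_nonneg_right (hw y z hz) (kap_nonneg _ _)).trans (le_of_eq ?_)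
  unfold kap
  rw [← Real.rpow_natCast, ← Real.rpow_add (norm_pos y)]
  congr 1
  ring

theorem le_half (hU : U.IsDim D) {x : ℝ} (hx : 1 ≤ x) (y : U.P) :
    (U.norm y : ℝ) ^ (-(D + x)) ≤ 1 / 2 := by
  have h1 : (U.norm y : ℝ) ^ (-(D + x)) ≤ (U.norm y : ℝ) ^ (-(1 : ℝ)) := by
    refine Real.rpow_le_rpow_of_exponent_le (norm_one_le y) ?_
    have : (0 : ℝ) ≤ D := Nat.cast_nonneg _
    linarith
  refine h1.trans ?_
  rw [Real.rpow_neg_one, one_div]
  exact inv_anti₀ (by norm_num) (norm_two_le hU y)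

theorem sum_bound (hb : ∀ y, Multiset.card (e y) ≤ b)
    (hw : ∀ y, ∀ z ∈ e y, ‖z‖ ≤ (U.norm y : ℝ) ^ j) {x : ℝ} (y : U.P) :
    ‖(e y).sum * (kap U (j + D + x) y : ℂ)‖ ≤ b * (U.norm y : ℝ) ^ (-(D + x)) := by
  have h1 : (e y).sum * (kap U (j + D + x) y : ℂ) =
      ((e y).map fun z => z * (kap U (j + D + x) y : ℂ)).sum := by
    rw [Multiset.sum_map_mul_right, Multiset.map_id']
  rw [h1]
  exact msum_le (by positivity) (hb y) fun z hz => u_le hw y hz

theorem rem_bound (hU : U.IsDim D) (hb : ∀ y, Multiset.card (e y) ≤ b)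
    (hw : ∀ y, ∀ z ∈ e y, ‖z‖ ≤ (U.norm y : ℝ) ^ j) {x : ℝ} (hx : 1 ≤ x) (y : U.P) :
    ‖rem e (j + D + x) y‖ ≤ b * bd U 1 (D + 2) y := by
  have h0 : bd U 1 (D + 2) y = (U.norm y : ℝ) ^ (-((D : ℝ) + 2)) := by
    unfold bd
    rw [if_neg (by have := hU.deg_pos y; omega)]
  rw [h0]
  refine msum_le (by positivity) (hb y) fun z hz => ?_
  have h1 := u_le (D := D) hw (x := x) y hz
  refine (log_bound (h1.trans (le_half hU hx y))).trans ?_
  refine (pow_le_pow_left₀ (norm_nonneg _) h1 2).trans ?_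
  rw [← Real.rpow_natCast, ← Real.rpow_mul (norm_pos y).le]
  refine Real.rpow_le_rpow_of_exponent_le (norm_one_le y) ?_
  push_cast
  have : (0 : ℝ) ≤ D := Nat.cast_nonneg _
  nlinarith

theorem kap_tendsto (y : U.P) {x0 : ℝ} : Tendsto (fun x : ℝ => kap U (j + D + x) y) (𝓝[>] x0)
    (𝓝 (kap U (j + D + x0) y)) := by
  have h : Continuous fun x : ℝ => kap U (j + D + x) y := by
    unfold kap
    exact Continuous.rpow continuous_const (by fun_prop) fun x => Or.inl (norm_pos y).ne'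
  exact (h.tendsto x0).mono_left nhdsWithin_le_nhds

theorem rem_tendsto (hU : U.IsDim D) (hw : ∀ y, ∀ z ∈ e y, ‖z‖ ≤ (U.norm y : ℝ) ^ j) (y : U.P) :
    Tendsto (fun x : ℝ => rem e (j + D + x) y) (𝓝[>] 1) (𝓝 (rem e (j + D + 1) y)) := by
  unfold rem
  refine tendsto_multiset_sum _ fun z hz => ?_
  have h1 : Tendsto (fun x : ℝ => z * (kap U (j + D + x) y : ℂ)) (𝓝[>] 1)
      (𝓝 (z * (kap U (j + D + 1) y : ℂ))) :=
    ((Complex.continuous_ofReal.tendsto _).comp (kap_tendsto y)).const_mul z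
  refine Tendsto.sub (Tendsto.neg ?_) h1
  refine Tendsto.clog (h1.const_sub 1) ?_
  have h2 := (u_le (D := D) hw (x := 1) y hz).trans (le_half hU le_rfl y)
  rw [Complex.mem_slitPlane_iff]
  left
  rw [Complex.sub_re, Complex.one_re]
  have h3 := (Complex.re_le_norm (z * (kap U (j + D + 1) y : ℂ))).trans h2
  linarith

theorem pw_summable (hU : U.IsDim D) {x : ℝ} (hx : 1 < x) :
    Summable fun y : U.P => (U.norm y : ℝ) ^ (-(D + x)) := by
  refine (bd_summable hU (m := 1) hx.le (by push_cast; linarith)).congr fun y => ?_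
  unfold bd
  rw [if_neg (by have := hU.deg_pos y; omega)]

theorem lin_summable (hU : U.IsDim D) (hb : ∀ y, Multiset.card (e y) ≤ b)
    (hw : ∀ y, ∀ z ∈ e y, ‖z‖ ≤ (U.norm y : ℝ) ^ j) {x : ℝ} (hx : 1 < x) :
    Summable fun y : U.P => (e y).sum * (kap U (j + D + x) y : ℂ) :=
  Summable.of_norm_bounded ((pw_summable hU hx).mul_left (b : ℝ)) fun y => sum_bound hb hw y

theorem rem_summable (hU : U.IsDim D) (hb : ∀ y, Multiset.card (e y) ≤ b)
    (hw : ∀ y, ∀ z ∈ e y, ‖z‖ ≤ (U.norm y : ℝ) ^ j) {x : ℝ} (hx : 1 ≤ x) :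
    Summable fun y : U.P => rem e (j + D + x) y :=
  Summable.of_norm_bounded ((bd_summable hU (m := 1) (x := 2) (by norm_num)
    (by norm_num)).mul_left (b : ℝ)) fun y => rem_bound hU hb hw hx y

/-- the Euler product converges -/
theorem hasProd_factor (hU : U.IsDim D) (hb : ∀ y, Multiset.card (e y) ≤ b)
    (hw : ∀ y, ∀ z ∈ e y, ‖z‖ ≤ (U.norm y : ℝ) ^ j) {x : ℝ} (hx : 1 < x) :
    HasProd (factor U e ((j + D + x : ℝ) : ℂ)) (Complex.exp (∑' y, ell e (j + D + x) y)) := by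
  have h1 : Summable fun y : U.P => ell e (j + D + x) y := by
    simp only [ell_eq]
    exact (lin_summable hU hb hw hx).add (rem_summable hU hb hw hx.le)
  have h2 := h1.hasSum.cexp
  have e1 : (Complex.exp ∘ fun y : U.P => ell e (j + D + x) y) =
      factor U e ((j + D + x : ℝ) : ℂ) := by
    funext y
    unfold factor ell
    rw [Function.comp_apply, Complex.exp_multiset_sum, Multiset.map_map]
    congr 1
    refine Multiset.map_congr rfl fun z hz => ?_
    have h3 := (u_le (D := D) hw (x := x) y hz).trans (le_half hU hx.le y)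
    have h4 : 1 - z * (kap U (j + D + x) y : ℂ) ≠ 0 := by
      intro h
      have h5 : z * (kap U (j + D + x) y : ℂ) = 1 := by linear_combination -h
      rw [h5, norm_one] at h3
      norm_num at h3
    rw [Function.comp_apply, Complex.exp_neg, Complex.exp_log h4, kap_ofReal]
  rwa [e1] at h2

/-! ## The edge -/

theorem higher_lim (hU : U.IsDim D) (hb : ∀ y, Multiset.card (e y) ≤ b)
    (hw : ∀ y, ∀ z ∈ e y, ‖z‖ ≤ (U.norm y : ℝ) ^ j) :
    ∃ c : ℂ, Tendsto (fun x : ℝ => ∑' y : U.P, if U.deg y = 1 then 0 else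
      (e y).sum * (kap U (j + D + x) y : ℂ)) (𝓝[>] 1) (𝓝 c) := by
  refine ⟨_, dom_conv (G := fun y => if U.deg y = 1 then 0 else
    (e y).sum * (kap U (j + D + 1) y : ℂ)) ((bd_summable hU (m := 2) (x := 1) le_rfl
      (by norm_num)).mul_left (b : ℝ)) (fun y => ?_) fun y x hx => ?_⟩
  · split_ifs
    · exact tendsto_const_nhds
    · exact ((Complex.continuous_ofReal.tendsto _).comp (kap_tendsto y)).const_mul _
  · split_ifs with h
    · rw [norm_zero]
      exact mul_nonneg (Nat.cast_nonneg _) (bd_nonneg _ _ _)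
    · refine (sum_bound hb hw y).trans (mul_le_mul_of_nonneg_left ?_ (Nat.cast_nonneg _))
      unfold bd
      have h1 := hU.deg_pos y
      rw [if_neg (by omega)]
      exact Real.rpow_le_rpow_of_exponent_le (norm_one_le y) (by linarith)

theorem rem_lim (hU : U.IsDim D) (hb : ∀ y, Multiset.card (e y) ≤ b)
    (hw : ∀ y, ∀ z ∈ e y, ‖z‖ ≤ (U.norm y : ℝ) ^ j) :
    ∃ c : ℂ, Tendsto (fun x : ℝ => ∑' y : U.P, rem e (j + D + x) y) (𝓝[>] 1) (𝓝 c) :=
  ⟨_, dom_conv ((bd_summable hU (m := 1) (x := 2) (by norm_num) (by norm_num)).mul_left (b : ℝ))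
    (rem_tendsto hU hw) fun y _ hx => rem_bound hU hb hw hx.le y⟩

theorem pointSum_le (hU : U.IsDim D) (hb : ∀ y, Multiset.card (e y) ≤ b)
    (hw : ∀ y, ∀ z ∈ e y, ‖z‖ ≤ (U.norm y : ℝ) ^ j) :
    ∃ C : ℝ, 0 ≤ C ∧ ∀ v, ‖pointSum U e v‖ ≤ C * (nm v : ℝ) ^ (j + D) := by
  classical
  obtain ⟨C, hC⟩ := hU.count
  refine ⟨|C| * b, by positivity, fun v => ?_⟩
  have hf : Finite {y // U.base y = v ∧ U.deg y = 1} := (hU.finite v 1).to_subtype
  have := Fintype.ofFinite {y // U.base y = v ∧ U.deg y = 1}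
  unfold pointSum
  rw [tsum_fintype]
  refine (norm_sum_le _ _).trans ?_
  have h1 : ∀ y ∈ (Finset.univ : Finset {y // U.base y = v ∧ U.deg y = 1}),
      ‖(e y.1).sum‖ ≤ b * (nm v : ℝ) ^ j := by
    rintro ⟨y, hy1, hy2⟩ -
    have h2 := msum_le (m := e y) (f := id) (c := (nm v : ℝ) ^ j) (by positivity) (hb y)
      fun z hz => by
        have h3 := hw y z hz
        rw [norm_eq, hy2, pow_one, hy1] at h3
        exact h3
    rwa [Multiset.map_id] at h2
  refine (Finset.sum_le_card_nsmul _ _ _ h1).trans ?_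
  rw [nsmul_eq_mul, Finset.card_univ, ← Nat.card_eq_fintype_card]
  have h3 : ((Nat.card {y // U.base y = v ∧ U.deg y = 1} : ℕ) : ℝ) ≤ |C| * (nm v : ℝ) ^ D := by
    have h4 := hC v 1
    rw [one_mul] at h4
    refine le_trans (le_of_eq ?_) (h4.trans (mul_le_mul_of_nonneg_right (le_abs_self C)
      (by positivity)))
    rfl
  calc ((Nat.card {y // U.base y = v ∧ U.deg y = 1} : ℕ) : ℝ) * (b * (nm v : ℝ) ^ j)
      ≤ (|C| * (nm v : ℝ) ^ D) * (b * (nm v : ℝ) ^ j) := mul_le_mul_of_nonneg_right h3 (by positivity)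
    _ = |C| * b * (nm v : ℝ) ^ (j + D) := by rw [pow_add]; ring

theorem fiber_eq (e : U.P → Multiset ℂ) {x : ℝ} (v : HeightOneSpectrum (𝓞 K)) :
    pointSum U e v * (((nm v : ℝ) ^ (-(j + D + x)) : ℝ) : ℂ) =
      ∑' y : U.base ⁻¹' {v}, (if U.deg y.1 = 1 then (e y.1).sum * (kap U (j + D + x) y.1 : ℂ)
        else 0) := by
  classical
  unfold pointSum
  rw [← tsum_mul_right, tsum_subtype (U.base ⁻¹' {v}) (fun y : U.P => if U.deg y = 1 then
      (e y).sum * (kap U (j + D + x) y : ℂ) else 0)]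
  have h2 := tsum_subtype {y : U.P | U.base y = v ∧ U.deg y = 1}
    (fun y : U.P => (e y).sum * (((nm v : ℝ) ^ (-(j + D + x)) : ℝ) : ℂ))
  refine Eq.trans h2 (tsum_congr fun y => ?_)
  by_cases h3 : U.base y = v
  · by_cases h4 : U.deg y = 1
    · rw [Set.indicator_of_mem (show y ∈ {y : U.P | U.base y = v ∧ U.deg y = 1} from ⟨h3, h4⟩),
        Set.indicator_of_mem (show y ∈ U.base ⁻¹' {v} from h3), if_pos h4]
      unfold kap
      rw [norm_eq, h4, pow_one, h3]
    · rw [Set.indicator_of_notMem (show y ∉ {y : U.P | U.base y = v ∧ U.deg y = 1} from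
        fun h => h4 h.2), Set.indicator_of_mem (show y ∈ U.base ⁻¹' {v} from h3), if_neg h4]
  · rw [Set.indicator_of_notMem (show y ∉ {y : U.P | U.base y = v ∧ U.deg y = 1} from
        fun h => h3 h.1), Set.indicator_of_notMem (show y ∉ U.base ⁻¹' {v} from h3)]

theorem lin_eq (hU : U.IsDim D) (hb : ∀ y, Multiset.card (e y) ≤ b)
    (hw : ∀ y, ∀ z ∈ e y, ‖z‖ ≤ (U.norm y : ℝ) ^ j) {x : ℝ} (hx : 1 < x) :
    HasSum (fun v => pointSum U e v * (((nm v : ℝ) ^ (-(j + D + x)) : ℝ) : ℂ))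
      (∑' y : U.P, if U.deg y = 1 then (e y).sum * (kap U (j + D + x) y : ℂ) else 0) := by
  classical
  have hs : Summable fun y : U.P => if U.deg y = 1 then
      (e y).sum * (kap U (j + D + x) y : ℂ) else 0 := by
    refine Summable.of_norm_bounded ((pw_summable hU hx).mul_left (b : ℝ)) fun y => ?_
    split_ifs
    · exact sum_bound hb hw y
    · rw [norm_zero]
      positivity
  have h1 := hs.hasSum.tsum_fiberwise U.base
  have key : (fun v => pointSum U e v * (((nm v : ℝ) ^ (-(j + D + x)) : ℝ) : ℂ)) = fun v =>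
      ∑' y : U.base ⁻¹' {v}, (if U.deg y.1 = 1 then (e y.1).sum * (kap U (j + D + x) y.1 : ℂ)
        else 0) := by
    funext v
    exact fiber_eq e v
  rw [key]
  exact h1

/-- the sum over the points of degree one, compared with a sum over the primes -/
theorem points_lim (hU : U.IsDim D) (hb : ∀ y, Multiset.card (e y) ≤ b)
    (hw : ∀ y, ∀ z ∈ e y, ‖z‖ ≤ (U.norm y : ℝ) ^ j)
    {t : HeightOneSpectrum (𝓞 K) → ℝ} {B : ℝ} (ht : ∀ v, |t v| ≤ B)
    (S : Finset (HeightOneSpectrum (𝓞 K))) {C : ℝ}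
    (hest : ∀ v, v ∉ S → ‖pointSum U e v - (nm v : ℂ) ^ (j + D) * (t v : ℂ)‖ ≤
      C * (nm v : ℝ) ^ ((j + D : ℝ) - 1 / 2)) :
    ∃ (c : ℂ) (E : ℝ → ℂ), Tendsto E (𝓝[>] 1) (𝓝 c) ∧ ∀ x, 1 < x →
      (∑' y : U.P, if U.deg y = 1 then (e y).sum * (kap U (j + D + x) y : ℂ) else 0) =
        (PE t x : ℂ) + E x := by
  classical
  obtain ⟨A, hA0, hA⟩ := pointSum_le hU hb hw
  have hB0 : 0 ≤ B ∨ IsEmpty (HeightOneSpectrum (𝓞 K)) := by
    by_cases h : Nonempty (HeightOneSpectrum (𝓞 K))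
    · obtain ⟨v⟩ := h
      exact Or.inl ((abs_nonneg _).trans (ht v))
    · exact Or.inr (not_nonempty_iff.1 h)
  set g : HeightOneSpectrum (𝓞 K) → ℝ → ℂ := fun v x =>
    (pointSum U e v - (nm v : ℂ) ^ (j + D) * (t v : ℂ)) * (((nm v : ℝ) ^ (-(j + D + x)) : ℝ) : ℂ)
    with hg
  set bb : HeightOneSpectrum (𝓞 K) → ℝ := fun v => (if v ∈ S then A + |B| else 0) +
    |C| * (nm v : ℝ) ^ (-(3 / 2 : ℝ)) with hbb
  have hbs : Summable bb := by
    refine Summable.add ?_ ((nm_summable (by norm_num)).mul_left _)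
    exact summable_of_ne_finset_zero (s := S) fun v hv => if_neg hv
  have hgb : ∀ v x, 1 < x → ‖g v x‖ ≤ bb v := by
    intro v x hx
    have hq : (0 : ℝ) < nm v := nm_pos v
    simp only [hg, hbb]
    rw [norm_mul, Complex.norm_real, Real.norm_eq_abs,
      abs_of_nonneg (a := (nm v : ℝ) ^ (-(j + D + x))) (by positivity)]
    by_cases hv : v ∈ S
    · rw [if_pos hv]
      have h1 : ‖pointSum U e v - (nm v : ℂ) ^ (j + D) * (t v : ℂ)‖ ≤
          (A + |B|) * (nm v : ℝ) ^ (j + D) := by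
        refine (norm_sub_le _ _).trans ?_
        rw [add_mul]
        refine add_le_add (hA v) ?_
        rw [norm_mul, norm_pow, Complex.norm_natCast, Complex.norm_real, Real.norm_eq_abs, mul_comm]
        exact mul_le_mul_of_nonneg_right ((ht v).trans (le_abs_self B)) (by positivity)
      have h2 : (nm v : ℝ) ^ (j + D) * (nm v : ℝ) ^ (-(j + D + x)) ≤ 1 := by
        rw [← Real.rpow_natCast, ← Real.rpow_add hq]
        refine Real.rpow_le_one_of_one_le_of_nonpos (nm_one_le v) ?_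
        push_cast
        linarith
      calc ‖pointSum U e v - (nm v : ℂ) ^ (j + D) * (t v : ℂ)‖ * (nm v : ℝ) ^ (-(j + D + x))
          ≤ ((A + |B|) * (nm v : ℝ) ^ (j + D)) * (nm v : ℝ) ^ (-(j + D + x)) :=
            mul_le_mul_of_nonneg_right h1 (by positivity)
        _ = (A + |B|) * ((nm v : ℝ) ^ (j + D) * (nm v : ℝ) ^ (-(j + D + x))) := by ring
        _ ≤ (A + |B|) * 1 := mul_le_mul_of_nonneg_left h2 (by positivity)
        _ ≤ _ := by
          rw [mul_one]
          have : 0 ≤ |C| * (nm v : ℝ) ^ (-(3 / 2 : ℝ)) := by positivity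
          linarith
    · rw [if_neg hv, zero_add]
      calc ‖pointSum U e v - (nm v : ℂ) ^ (j + D) * (t v : ℂ)‖ * (nm v : ℝ) ^ (-(j + D + x))
          ≤ (|C| * (nm v : ℝ) ^ ((j + D : ℝ) - 1 / 2)) * (nm v : ℝ) ^ (-(j + D + x)) := by
            refine mul_le_mul_of_nonneg_right ((hest v hv).trans ?_) (by positivity)
            exact mul_le_mul_of_nonneg_right (le_abs_self C) (by positivity)
        _ = |C| * (nm v : ℝ) ^ (-(1 / 2) - x) := by
            rw [mul_assoc, ← Real.rpow_add hq]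
            congr 2
            ring
        _ ≤ _ := by
            refine mul_le_mul_of_nonneg_left (Real.rpow_le_rpow_of_exponent_le (nm_one_le v) ?_)
              (abs_nonneg _)
            linarith
  refine ⟨_, fun x => ∑' v, g v x, dom_conv (G := fun v => g v 1) hbs (fun v => ?_) hgb,
    fun x hx => ?_⟩
  · simp only [hg]
    refine Tendsto.const_mul _ ((Complex.continuous_ofReal.tendsto _).comp ?_)
    have h : Continuous fun x : ℝ => (nm v : ℝ) ^ (-(j + D + x)) :=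
      Continuous.rpow continuous_const (by fun_prop) fun x => Or.inl (nm_pos v).ne'
    exact (h.tendsto 1).mono_left nhdsWithin_le_nhds
  · have h1 := lin_eq hU hb hw hx
    have h2 : Summable fun v => g v x := Summable.of_norm_bounded hbs fun v => hgb v x hx
    have h3 : Summable fun v => ((t v * (nm v : ℝ) ^ (-x) : ℝ) : ℂ) :=
      Complex.ofRealCLM.summable (PE_summable ht hx)
    rw [← h1.tsum_eq]
    unfold PE
    rw [Complex.ofReal_tsum, ← h3.tsum_add h2]
    refine tsum_congr fun v => ?_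
    simp only [hg]
    have h4 : (nm v : ℂ) ^ (j + D) * (((nm v : ℝ) ^ (-(j + D + x)) : ℝ) : ℂ) =
        (((nm v : ℝ) ^ (-x) : ℝ) : ℂ) := by
      have h5 : (nm v : ℝ) ^ (j + D) * (nm v : ℝ) ^ (-(j + D + x)) = (nm v : ℝ) ^ (-x) := by
        rw [← Real.rpow_natCast, ← Real.rpow_add (nm_pos v)]
        congr 1
        push_cast
        ring
      rw [← h5]
      push_cast
      rfl
    rw [sub_mul, mul_right_comm, h4]
    push_cast
    ring

/-- **The order of the Euler product at the edge.** -/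
theorem euler_lim (hU : U.IsDim D) (hb : ∀ y, Multiset.card (e y) ≤ b)
    (hw : ∀ y, ∀ z ∈ e y, ‖z‖ ≤ (U.norm y : ℝ) ^ j)
    {t : HeightOneSpectrum (𝓞 K) → ℝ} {B : ℝ} (ht : ∀ v, |t v| ≤ B)
    (S : Finset (HeightOneSpectrum (𝓞 K))) {C : ℝ}
    (hest : ∀ v, v ∉ S → ‖pointSum U e v - (nm v : ℂ) ^ (j + D) * (t v : ℂ)‖ ≤
      C * (nm v : ℝ) ^ ((j + D : ℝ) - 1 / 2)) {r : ℕ}
    (hr : Cv fun x => PE t x + (r : ℝ) * Real.log (x - 1)) :
    ∃ c : ℂ, c ≠ 0 ∧ Tendsto (fun x : ℝ => ((x - 1 : ℝ) : ℂ) ^ r *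
      ∏' y, factor U e ((j + D + x : ℝ) : ℂ) y) (𝓝[>] 1) (𝓝 c) := by
  obtain ⟨c1, h1⟩ := higher_lim hU hb hw
  obtain ⟨c2, h2⟩ := rem_lim hU hb hw
  obtain ⟨c3, E, h3, h4⟩ := points_lim hU hb hw ht S hest
  obtain ⟨c4, h5⟩ := hr
  refine ⟨Complex.exp (((c4 : ℝ) : ℂ) + (c3 + (c1 + c2))), Complex.exp_ne_zero _, ?_⟩
  have h6 := (Complex.continuous_exp.tendsto _).comp
    (((Complex.continuous_ofReal.tendsto _).comp h5).add (h3.add (h1.add h2)))
  refine h6.congr' ?_
  filter_upwards [self_mem_nhdsWithin] with x hx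
  have hx' : (1 : ℝ) < x := hx
  rw [(hasProd_factor hU hb hw hx').tprod_eq]
  have e1 : ∑' y, ell e (j + D + x) y =
      (∑' y : U.P, if U.deg y = 1 then (e y).sum * (kap U (j + D + x) y : ℂ) else 0) +
      ((∑' y : U.P, if U.deg y = 1 then 0 else (e y).sum * (kap U (j + D + x) y : ℂ)) +
        ∑' y : U.P, rem e (j + D + x) y) := by
    have hl := lin_summable hU hb hw hx'
    have hs1 : Summable fun y : U.P => if U.deg y = 1 then
        (e y).sum * (kap U (j + D + x) y : ℂ) else 0 := by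
      refine Summable.of_norm_bounded ((pw_summable hU hx').mul_left (b : ℝ)) fun y => ?_
      split_ifs
      · exact sum_bound hb hw y
      · rw [norm_zero]
        positivity
    have hs2 : Summable fun y : U.P => if U.deg y = 1 then 0 else
        (e y).sum * (kap U (j + D + x) y : ℂ) := by
      refine Summable.of_norm_bounded ((pw_summable hU hx').mul_left (b : ℝ)) fun y => ?_
      split_ifs
      · rw [norm_zero]
        positivity
      · exact sum_bound hb hw y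
    rw [← hs2.tsum_add (rem_summable hU hb hw hx'.le), ← hs1.tsum_add
      (hs2.add (rem_summable hU hb hw hx'.le))]
    refine tsum_congr fun y => ?_
    rw [ell_eq]
    split_ifs <;> ring
  have e2 : ((x - 1 : ℝ) : ℂ) ^ r = Complex.exp ((((r : ℝ) * Real.log (x - 1) : ℝ)) : ℂ) := by
    rw [← Complex.ofReal_exp, Real.exp_nat_mul, Real.exp_log (by linarith)]
    push_cast
    rfl
  rw [e2, e1, h4 x hx', ← Complex.exp_add]
  simp only [Function.comp_apply]
  congr 1
  push_cast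
  ring

end

end Pool.Agent.Y88.QP
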