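import Pool.Agent.Y125.XT.Dz
import Pool.Agent.H921R2.TatePole.Base

/-! Sums over the primes of a number field near the edge: existence of limits. -/

set_option autoImplicit false

namespace Pool.Agent.Y88.QP

open NumberField IsDedekindDomain Filter Topology
open Pool.Agent.H921R2.TatePole (nm two_le_nm nm_summable nm_eq deg below deg_two_bound C0 ZK
  ZK_tendsto nm_rpow_le_half neg_log_one_sub_le)

theorem dom_conv {ι E : Type*} [NormedAddCommGroup E] [CompleteSpace E] {x0 : ℝ} {F : ι → ℝ → E}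
    {G : ι → E} {b : ι → ℝ} (hb : Summable b) (hF : ∀ i, Tendsto (F i) (𝓝[>] x0) (𝓝 (G i)))
    (hbd : ∀ i, ∀ x, x0 < x → ‖F i x‖ ≤ b i) :
    Tendsto (fun x => ∑' i, F i x) (𝓝[>] x0) (𝓝 (∑' i, G i)) :=
  tendsto_tsum_of_dominated_convergence hb hF (by
    filter_upwards [self_mem_nhdsWithin] with x hx i
    exact hbd i x hx)

/-- the function has a limit at `1` from the right -/
def Cv (g : ℝ → ℝ) : Prop := ∃ c : ℝ, Tendsto g (𝓝[>] 1) (𝓝 c)

theorem Cv.add {g h : ℝ → ℝ} (hg : Cv g) (hh : Cv h) : Cv (fun x => g x + h x) := by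
  obtain ⟨a, ha⟩ := hg
  obtain ⟨b, hb⟩ := hh
  exact ⟨a + b, ha.add hb⟩

theorem Cv.sub {g h : ℝ → ℝ} (hg : Cv g) (hh : Cv h) : Cv (fun x => g x - h x) := by
  obtain ⟨a, ha⟩ := hg
  obtain ⟨b, hb⟩ := hh
  exact ⟨a - b, ha.sub hb⟩

theorem Cv.const_mul {g : ℝ → ℝ} (hg : Cv g) (r : ℝ) : Cv (fun x => r * g x) := by
  obtain ⟨a, ha⟩ := hg
  exact ⟨r * a, ha.const_mul r⟩

theorem Cv.congr {g h : ℝ → ℝ} (hg : Cv g) (e : ∀ x, 1 < x → g x = h x) : Cv h := by
  obtain ⟨a, ha⟩ := hg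
  refine ⟨a, ha.congr' ?_⟩
  filter_upwards [self_mem_nhdsWithin] with x hx
  exact e x hx

theorem Cv.sum {κ : Type*} (S : Finset κ) {g : κ → ℝ → ℝ} (h : ∀ k ∈ S, Cv (g k)) :
    Cv (fun x => ∑ k ∈ S, g k x) := by
  classical
  induction S using Finset.induction_on with
  | empty => exact ⟨0, by simp⟩
  | insert a S ha ih =>
    have h1 := (h a (Finset.mem_insert_self _ _)).add (ih fun k hk => h k (Finset.mem_insert_of_mem hk))
    exact h1.congr fun x _ => by rw [Finset.sum_insert ha]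

section
variable {K : Type} [Field K] [NumberField K]

/-- sums over the primes -/
noncomputable def PE (f : HeightOneSpectrum (𝓞 K) → ℝ) (x : ℝ) : ℝ := ∑' v, f v * (nm v : ℝ) ^ (-x)

theorem nm_pos (v : HeightOneSpectrum (𝓞 K)) : (0 : ℝ) < nm v := by
  have := two_le_nm v
  exact_mod_cast (by omega : 0 < nm v)

theorem nm_one_le (v : HeightOneSpectrum (𝓞 K)) : (1 : ℝ) ≤ nm v := by
  have := two_le_nm v
  exact_mod_cast (by omega : 1 ≤ nm v)

theorem PE_summable {f : HeightOneSpectrum (𝓞 K) → ℝ} {B : ℝ} (hf : ∀ v, |f v| ≤ B) {x : ℝ}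
    (hx : 1 < x) : Summable fun v => f v * (nm v : ℝ) ^ (-x) := by
  refine Summable.of_norm_bounded ((nm_summable hx).mul_left B) fun v => ?_
  rw [norm_mul, Real.norm_eq_abs, Real.norm_eq_abs, abs_of_nonneg (a := (nm v : ℝ) ^ (-x))
    (by positivity)]
  exact mul_le_mul_of_nonneg_right (hf v) (by positivity)

theorem tendsto_nm (v : HeightOneSpectrum (𝓞 K)) (x0 : ℝ) :
    Tendsto (fun x : ℝ => (nm v : ℝ) ^ (-x)) (𝓝[>] x0) (𝓝 ((nm v : ℝ) ^ (-x0))) := by
  have h : Continuous fun x : ℝ => (nm v : ℝ) ^ (-x) :=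
    Continuous.rpow continuous_const continuous_neg fun x => Or.inl (nm_pos v).ne'
  exact (h.tendsto x0).mono_left nhdsWithin_le_nhds

open Classical in
/-- primes of degree at least two: the sum converges at the edge -/
theorem deg_two_summable :
    Summable fun v : HeightOneSpectrum (𝓞 K) => (if deg v = 1 then 0 else (nm v : ℝ) ^ (-(1 : ℝ))) := by
  have hnn : ∀ v : HeightOneSpectrum (𝓞 K), 0 ≤ (if deg v = 1 then (0 : ℝ) else (nm v : ℝ) ^ (-(1 : ℝ))) := by
    intro v
    split_ifs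
    · exact le_rfl
    · positivity
  set g : HeightOneSpectrum (𝓞 K) → ℝ := fun v => if deg v = 1 then 0 else 1 with hg
  have hg1 : ∀ v, |g v| ≤ 1 := by
    intro v
    simp only [hg]
    split_ifs <;> simp
  refine summable_of_sum_le hnn (c := 1 * Module.finrank ℚ K * C0) fun G => ?_
  have h1 : Tendsto (fun x : ℝ => ∑ v ∈ G, g v * (nm v : ℝ) ^ (-x)) (𝓝[>] 1)
      (𝓝 (∑ v ∈ G, g v * (nm v : ℝ) ^ (-(1 : ℝ)))) :=
    tendsto_finsetSum _ fun v _ => (tendsto_nm v 1).const_mul _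
  have e1 : ∑ v ∈ G, g v * (nm v : ℝ) ^ (-(1 : ℝ)) =
      ∑ v ∈ G, (if deg v = 1 then 0 else (nm v : ℝ) ^ (-(1 : ℝ))) := by
    refine Finset.sum_congr rfl fun v _ => ?_
    simp only [hg]
    split_ifs <;> simp
  rw [← e1]
  refine le_of_tendsto h1 ?_
  filter_upwards [self_mem_nhdsWithin] with x hx
  have hx' : (1 : ℝ) < x := hx
  have h2 := deg_two_bound (K := K) hx' hg1
  have h3 : ∀ p : Nat.Primes, (∑ v : {v : HeightOneSpectrum (𝓞 K) // below v = p},
      if deg v.1 = 1 then g v.1 else 0) = 0 := by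
    intro p
    refine Finset.sum_eq_zero fun v _ => ?_
    simp only [hg]
    split_ifs <;> rfl
  simp only [h3, zero_mul, tsum_zero, sub_zero] at h2
  refine le_trans ?_ ((le_abs_self _).trans h2)
  refine (PE_summable hg1 hx').sum_le_tsum G fun v _ => ?_
  simp only [hg]
  split_ifs
  · simp
  · positivity

/-- sums over the primes of degree at least two have a limit -/
theorem PE_deg_two {f : HeightOneSpectrum (𝓞 K) → ℝ} {B : ℝ} (hf : ∀ v, |f v| ≤ B)
    (h1 : ∀ v, deg v = 1 → f v = 0) : Cv (PE f) := by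
  classical
  refine ⟨_, dom_conv (b := fun v => B * (if deg v = 1 then 0 else (nm v : ℝ) ^ (-(1 : ℝ))))
    (deg_two_summable.mul_left B) (fun v => (tendsto_nm v 1).const_mul (f v)) fun v x hx => ?_⟩
  by_cases h : deg v = 1
  · rw [h1 v h, if_pos h, zero_mul, mul_zero, norm_zero]
  · rw [if_neg h, norm_mul, Real.norm_eq_abs, Real.norm_eq_abs,
      abs_of_nonneg (a := (nm v : ℝ) ^ (-x)) (by positivity)]
    have hB : 0 ≤ B := (abs_nonneg _).trans (hf v)
    exact mul_le_mul (hf v) (Real.rpow_le_rpow_of_exponent_le (nm_one_le v) (by linarith))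
      (by positivity) hB

theorem PE_finite {f : HeightOneSpectrum (𝓞 K) → ℝ} (S : Finset (HeightOneSpectrum (𝓞 K)))
    (h1 : ∀ v, v ∉ S → f v = 0) : Cv (PE f) := by
  have e : ∀ x, PE f x = ∑ v ∈ S, f v * (nm v : ℝ) ^ (-x) := fun x =>
    tsum_eq_sum fun v hv => by rw [h1 v hv, zero_mul]
  refine ⟨∑ v ∈ S, f v * (nm v : ℝ) ^ (-(1 : ℝ)), ?_⟩
  simp only [funext e]
  exact tendsto_finsetSum _ fun v _ => (tendsto_nm v 1).const_mul _

theorem PE_add {f g : HeightOneSpectrum (𝓞 K) → ℝ} {B C : ℝ} (hf : ∀ v, |f v| ≤ B)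
    (hg : ∀ v, |g v| ≤ C) {x : ℝ} (hx : 1 < x) : PE (fun v => f v + g v) x = PE f x + PE g x := by
  unfold PE
  rw [← (PE_summable hf hx).tsum_add (PE_summable hg hx)]
  exact tsum_congr fun v => by ring

theorem PE_const_mul (f : HeightOneSpectrum (𝓞 K) → ℝ) (r x : ℝ) :
    PE (fun v => r * f v) x = r * PE f x := by
  unfold PE
  rw [← tsum_mul_left]
  exact tsum_congr fun v => by ring

/-- changing the values at the primes of degree at least two and at finitely many others -/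
theorem PE_change {f g : HeightOneSpectrum (𝓞 K) → ℝ} {B C : ℝ} (hf : ∀ v, |f v| ≤ B)
    (hg : ∀ v, |g v| ≤ C) (S : Finset (HeightOneSpectrum (𝓞 K)))
    (h : ∀ v, v ∉ S → deg v = 1 → f v = g v) : Cv (fun x => PE f x - PE g x) := by
  classical
  set a : HeightOneSpectrum (𝓞 K) → ℝ := fun v => if deg v = 1 then 0 else f v - g v with ha
  set b : HeightOneSpectrum (𝓞 K) → ℝ := fun v => if deg v = 1 then f v - g v else 0 with hb
  have hfg : ∀ v, |f v - g v| ≤ B + C := fun v => (abs_sub _ _).trans (add_le_add (hf v) (hg v))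
  have ha1 : ∀ v, |a v| ≤ B + C := by
    intro v
    simp only [ha]
    split_ifs
    · rw [abs_zero]; exact (abs_nonneg _).trans (hfg v)
    · exact hfg v
  have hb1 : ∀ v, |b v| ≤ B + C := by
    intro v
    simp only [hb]
    split_ifs
    · exact hfg v
    · rw [abs_zero]; exact (abs_nonneg _).trans (hfg v)
  have h1 : Cv (PE a) := PE_deg_two ha1 fun v hv => by simp only [ha]; rw [if_pos hv]
  have h2 : Cv (PE b) := PE_finite S fun v hv => by
    simp only [hb]
    split_ifs with hd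
    · rw [h v hv hd, sub_self]
    · rfl
  refine (h1.add h2).congr fun x hx => ?_
  rw [← PE_add ha1 hb1 hx]
  unfold PE
  rw [← (PE_summable hf hx).tsum_sub (PE_summable hg hx)]
  refine tsum_congr fun v => ?_
  simp only [ha, hb]
  split_ifs <;> ring

/-- the logarithm of the zeta function -/
theorem log_ZK {x : ℝ} (hx : 1 < x) :
    (Summable fun v : HeightOneSpectrum (𝓞 K) => -Real.log (1 - (nm v : ℝ) ^ (-x))) ∧
    Real.log (ZK K x) = ∑' v : HeightOneSpectrum (𝓞 K), -Real.log (1 - (nm v : ℝ) ^ (-x)) := by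
  have hpos : ∀ v : HeightOneSpectrum (𝓞 K), 0 < 1 - (nm v : ℝ) ^ (-x) := fun v => by
    have := nm_rpow_le_half v hx.le
    linarith
  have hs : Summable fun v : HeightOneSpectrum (𝓞 K) => -Real.log (1 - (nm v : ℝ) ^ (-x)) := by
    refine Summable.of_nonneg_of_le (fun v => ?_) (fun v => ?_) ((nm_summable (K := K) hx).mul_left 2)
    · have h0 : 0 ≤ (nm v : ℝ) ^ (-x) := by positivity
      have := Real.log_nonpos (hpos v).le (by linarith)
      linarith
    · have h0 : 0 ≤ (nm v : ℝ) ^ (-x) := by positivity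
      have h1 := nm_rpow_le_half v hx.le
      have h2 := neg_log_one_sub_le h0 h1
      nlinarith
  refine ⟨hs, ?_⟩
  have h1 := hs.hasSum.rexp
  have e1 : (Real.exp ∘ fun v : HeightOneSpectrum (𝓞 K) => -Real.log (1 - (nm v : ℝ) ^ (-x))) =
      fun v => (1 - (nm v : ℝ) ^ (-x))⁻¹ := by
    funext v
    rw [Function.comp_apply, Real.exp_neg, Real.exp_log (hpos v)]
  rw [e1] at h1
  rw [(Pool.Agent.Y125.XT.hasProd_ZK hx).unique h1, Real.log_exp]

theorem abs_log_sub {u : ℝ} (h0 : 0 ≤ u) (h1 : u ≤ 1 / 2) : |-Real.log (1 - u) - u| ≤ u ^ 2 := by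
  have h2 := neg_log_one_sub_le h0 h1
  have h3 : Real.log (1 - u) ≤ -u := by
    have := Real.log_le_sub_one_of_pos (show 0 < 1 - u by linarith)
    linarith
  rw [abs_le]
  constructor <;> nlinarith [sq_nonneg u]

variable (K) in
/-- the sum over all primes -/
theorem PE_one : Cv (fun x => PE (fun _ : HeightOneSpectrum (𝓞 K) => (1 : ℝ)) x + Real.log (x - 1)) := by
  have h1 : Cv (fun x => Real.log ((x - 1) * ZK K x)) :=
    ⟨_, (ZK_tendsto (K := K)).log (NumberField.dedekindZeta_residue_ne_zero K)⟩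
  have hb : Summable fun v : HeightOneSpectrum (𝓞 K) => (nm v : ℝ) ^ (-(2 : ℝ)) :=
    nm_summable (by norm_num)
  have h2 : Cv (fun x => ∑' v : HeightOneSpectrum (𝓞 K),
      (-Real.log (1 - (nm v : ℝ) ^ (-x)) - (nm v : ℝ) ^ (-x))) := by
    refine ⟨_, dom_conv (G := fun v : HeightOneSpectrum (𝓞 K) =>
      (-Real.log (1 - (nm v : ℝ) ^ (-(1 : ℝ))) - (nm v : ℝ) ^ (-(1 : ℝ)))) hb (fun v => ?_)
      fun v x hx => ?_⟩
    · have h3 := tendsto_nm v 1
      have h4 : (1 : ℝ) - (nm v : ℝ) ^ (-(1 : ℝ)) ≠ 0 := by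
        have := nm_rpow_le_half v le_rfl
        linarith
      exact (((h3.const_sub 1).log h4).neg).sub h3
    · have h0 : 0 ≤ (nm v : ℝ) ^ (-x) := by positivity
      refine (abs_log_sub h0 (nm_rpow_le_half v hx.le)).trans ?_
      rw [← Real.rpow_natCast, ← Real.rpow_mul (nm_pos v).le]
      refine Real.rpow_le_rpow_of_exponent_le (nm_one_le v) ?_
      push_cast
      linarith
  refine (h1.sub h2).congr fun x hx => ?_
  have hZ : 0 < ZK K x := Pool.Agent.Y125.XT.ZK_pos' hx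
  rw [Real.log_mul (by linarith) hZ.ne', (log_ZK hx).2]
  have h3 := (log_ZK (K := K) hx).1
  have h4 := nm_summable (K := K) hx
  rw [h3.tsum_sub h4]
  unfold PE
  simp only [one_mul]
  ring

end

end Pool.Agent.Y88.QP
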