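import Pool.Agent.Y88.QP.Lim
import Pool.Agent.W353.NF.Corr
import Pool.Agent.Y707.RX.Comb

/-! Sums of the values of rational Galois characters at the Frobenius elements near the edge. -/

set_option autoImplicit false

namespace Pool.Agent.Y88.QP

open NumberField IsDedekindDomain Filter Topology
open Pool.Agent.H921R2.TatePole (nm two_le_nm nm_summable nm_eq deg below kerPrime kerPrime_bijective)
open Pool.Agent.W401.Cheb Pool.Agent.W353.NF
open Pool.Agent.W353.TP (HX push qh sysH EH_push summable_HX push_abs_le qh_abs)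

section
variable {K : Type} [Field K] [NumberField K]

theorem vx_deg (y : HX K) : deg (vx y) = 1 := (kerPrime y.1 y.2).2

theorem vx_below (y : HX K) : below (vx y) = y.1 := (kerPrime y.1 y.2).1.2

theorem vx_nm (y : HX K) : nm (vx y) = (y.1 : ℕ) := by
  rw [(nm_eq (vx y)).1, vx_deg, pow_one, vx_below]

theorem vx_injective : Function.Injective (vx (K := K)) := by
  rintro ⟨p, φ⟩ ⟨q, ψ⟩ h
  have h1 : p = q := by
    have h2 := congrArg below h
    rwa [vx_below, vx_below] at h2
  subst h1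
  have h2 : kerPrime p φ = kerPrime p ψ := Subtype.ext (Subtype.ext h)
  rw [(kerPrime_bijective p).1 h2]

theorem vx_surj {v : HeightOneSpectrum (𝓞 K)} (hv : deg v = 1) : ∃ y : HX K, vx y = v := by
  obtain ⟨φ, hφ⟩ := (kerPrime_bijective (K := K) (below v)).2 ⟨⟨v, rfl⟩, hv⟩
  exact ⟨⟨below v, φ⟩, congrArg (fun z => z.1.1) hφ⟩

/-- the extension by zero of a function of the homomorphisms to prime fields -/
noncomputable def ext (h : HX K → ℝ) : HeightOneSpectrum (𝓞 K) → ℝ :=
  Function.extend vx h 0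

theorem ext_vx (h : HX K → ℝ) (y : HX K) : ext h (vx y) = h y :=
  vx_injective.extend_apply h 0 y

theorem ext_zero (h : HX K → ℝ) {v : HeightOneSpectrum (𝓞 K)} (hv : deg v ≠ 1) : ext h v = 0 := by
  unfold ext
  rw [Function.extend_apply' _ _ _ (by
    rintro ⟨y, rfl⟩
    exact hv (vx_deg y))]
  rfl

theorem ext_abs {h : HX K → ℝ} {B : ℝ} (hB : 0 ≤ B) (hb : ∀ y, |h y| ≤ B)
    (v : HeightOneSpectrum (𝓞 K)) : |ext h v| ≤ B := by
  by_cases hv : deg v = 1
  · obtain ⟨y, rfl⟩ := vx_surj hv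
    rw [ext_vx]
    exact hb y
  · rw [ext_zero h hv, abs_zero]
    exact hB

theorem PE_ext (h : HX K → ℝ) (x : ℝ) :
    PE (ext h) x = ∑' y : HX K, h y * ((y.1 : ℕ) : ℝ) ^ (-x) := by
  unfold PE
  rw [← vx_injective.tsum_eq (f := fun v => ext h v * (nm v : ℝ) ^ (-x))]
  · exact tsum_congr fun y => by rw [ext_vx, vx_nm]
  · intro v hv
    rw [Function.mem_support] at hv
    by_contra hne
    apply hv
    rw [ext_zero h, zero_mul]
    intro hd
    obtain ⟨y, hy⟩ := vx_surj hd
    exact hne ⟨y, hy⟩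

end

section
variable (K : Type) {F : Type} [Field K] [NumberField K] [Field F] [NumberField F] [Algebra K F]

/-- the sums for an extension field in terms of the base field -/
theorem PE_push {x : ℝ} (hx : 1 < x) :
    PE (ext (fun _ : HX F => (1 : ℝ))) x = PE (ext (push K (qh (1 : 𝓞 F)))) x := by
  rw [PE_ext, PE_ext]
  have h := EH_push (K := K) (F := F) (ε := x - 1) (by linarith) (h := qh (1 : 𝓞 F)) (B := 1)
    (fun y => qh_abs _ _)
  have e : -(1 + (x - 1)) = -x := by ring
  have h1 : (sysH F).E (x - 1) (qh (1 : 𝓞 F)) = ∑' y : HX F, qh (1 : 𝓞 F) y *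
      ((y.1 : ℕ) : ℝ) ^ (-(1 + (x - 1))) := rfl
  have h2 : (sysH K).E (x - 1) (push K (qh (1 : 𝓞 F))) = ∑' y : HX K, push K (qh (1 : 𝓞 F)) y *
      ((y.1 : ℕ) : ℝ) ^ (-(1 + (x - 1))) := rfl
  rw [h1, h2, e] at h
  rw [← h]
  exact tsum_congr fun y => by rw [qh_one]

/-- **The sum of the numbers of the fixed embeddings near the edge.** -/
theorem fixn_lim (F : Type) [Field F] [NumberField F] [Algebra K F]
    (σ : HeightOneSpectrum (𝓞 K) → GK K) (hσ : ∀ v, IsFrob v (σ v)) :
    Cv (fun x => PE (fun v => (fixn K F (σ v) : ℝ)) x + Real.log (x - 1)) := by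
  obtain ⟨S, hS⟩ := push_fix K F
  set B : ℝ := (Module.finrank ℚ F : ℝ) with hB
  have hB0 : 0 ≤ B := by positivity
  have hfix : ∀ v, |(fixn K F (σ v) : ℝ)| ≤ B := fun v => by
    rw [abs_of_nonneg (Nat.cast_nonneg _)]
    exact fixn_le _
  have hpush : ∀ y : HX K, |push K (qh (1 : 𝓞 F)) y| ≤ B := fun y => by
    have := push_abs_le (K := K) (qh_abs (1 : 𝓞 F)) y
    rwa [mul_one] at this
  have h1 : Cv (fun x => PE (fun v => (fixn K F (σ v) : ℝ)) x - PE (ext (push K (qh (1 : 𝓞 F)))) x) := by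
    refine PE_change hfix (ext_abs hB0 hpush) S fun v hv hd => ?_
    obtain ⟨y, rfl⟩ := vx_surj hd
    rw [ext_vx, hS y hv _ (hσ _)]
  have h2 : Cv (fun x => PE (ext (fun _ : HX F => (1 : ℝ))) x -
      PE (fun _ : HeightOneSpectrum (𝓞 F) => (1 : ℝ)) x) := by
    refine PE_change (ext_abs zero_le_one fun _ => by simp) (B := 1) (C := 1) (fun _ => by simp) ∅
      fun v _ hd => ?_
    obtain ⟨y, rfl⟩ := vx_surj hd
    rw [ext_vx]
  refine ((h1.add h2).add (PE_one F)).congr fun x hx => ?_
  rw [PE_push K hx]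
  ring

end

section
variable {K : Type} [Field K] [NumberField K]
variable {W : Type} [AddCommGroup W] [Module ℚ W] [FiniteDimensional ℚ W]

open Pool.Agent.W353.TD (ch rank)

theorem fixn_bot (g : GK K) : fixn K (⊥ : IntermediateField K (AlgebraicClosure K)) g = 1 := by
  unfold fixn
  rw [Nat.card_eq_one_iff_unique]
  have hu : ∀ i j : (⊥ : IntermediateField K (AlgebraicClosure K)) →ₐ[K] AlgebraicClosure K, i = j := by
    intro i j
    ext ⟨x, hx⟩
    obtain ⟨a, rfl⟩ := IntermediateField.mem_bot.1 hx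
    exact (i.commutes a).trans (j.commutes a).symm
  exact ⟨⟨fun a b => Subtype.ext (hu _ _)⟩, ⟨⟨IntermediateField.val _, hu _ _⟩⟩⟩

/-- **The sum of the values of a rational Galois character near the edge.** -/
theorem ch_lim (ρ : Representation ℚ (GK K) W)
    (hρ : ∃ U : Subgroup (GK K), IsOpen (U : Set (GK K)) ∧ ∀ u ∈ U, ρ u = 1)
    (σ : HeightOneSpectrum (𝓞 K) → GK K) (hσ : ∀ v, IsFrob v (σ v)) :
    Cv (fun x => PE (fun v => ch ρ (σ v)⁻¹) x +
      (rank ρ (⊥ : IntermediateField K (AlgebraicClosure K)) : ℝ) * Real.log (x - 1)) := by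
  classical
  have hbot : NumberField (⊥ : IntermediateField K (AlgebraicClosure K)) := by
    have : FiniteDimensional K (⊥ : IntermediateField K (AlgebraicClosure K)) := inferInstance
    exact NumberField.of_module_finite K _
  obtain ⟨κ, _, L, hL, c, hc⟩ := Pool.Agent.Y707.RX.exists_comb_fix ρ hρ
    (⊥ : IntermediateField K (AlgebraicClosure K))
  have hs := Pool.Agent.Y707.RX.sum_comb ρ hρ (⊥ : IntermediateField K (AlgebraicClosure K)) hc
  have h1 : ∀ g : GK K, ch ρ g⁻¹ = ∑ j, c j * (fixn K (L j) g : ℝ) := fun g => by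
    rw [← hc g, fixn_bot, Nat.cast_one, mul_one]
  have h2 : Cv (fun x => ∑ j : κ, c j * (PE (fun v => (fixn K (L j) (σ v) : ℝ)) x +
      Real.log (x - 1))) := Cv.sum _ fun j _ => (fixn_lim K (L j) σ hσ).const_mul (c j)
  refine h2.congr fun x hx => ?_
  have e1 : PE (fun v => ch ρ (σ v)⁻¹) x = ∑ j : κ, c j * PE (fun v => (fixn K (L j) (σ v) : ℝ)) x := by
    have e2 : ∀ j : κ, c j * PE (fun v => (fixn K (L j) (σ v) : ℝ)) x =
        ∑' v, c j * ((fixn K (L j) (σ v) : ℝ) * (nm v : ℝ) ^ (-x)) := fun j => by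
      unfold PE
      rw [tsum_mul_left]
    simp only [e2]
    have hsm : ∀ j ∈ (Finset.univ : Finset κ), Summable fun v : HeightOneSpectrum (𝓞 K) =>
        c j * ((fixn K (L j) (σ v) : ℝ) * (nm v : ℝ) ^ (-x)) := fun j _ =>
      (PE_summable (fun v => by
        rw [abs_of_nonneg (Nat.cast_nonneg _)]
        exact fixn_le (K := K) (F := L j) _) hx).mul_left (c j)
    rw [← Summable.tsum_finsetSum hsm]
    unfold PE
    refine tsum_congr fun v => ?_
    change ch ρ (σ v)⁻¹ * (nm v : ℝ) ^ (-x) = _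
    rw [h1, Finset.sum_mul]
    exact Finset.sum_congr rfl fun j _ => by ring
  rw [e1, ← hs, Finset.sum_mul, ← Finset.sum_add_distrib]
  exact Finset.sum_congr rfl fun j _ => by ring

/-- the character is bounded -/
theorem ch_bound (ρ : Representation ℚ (GK K) W)
    (hρ : ∃ U : Subgroup (GK K), IsOpen (U : Set (GK K)) ∧ ∀ u ∈ U, ρ u = 1) :
    ∃ B : ℝ, ∀ g : GK K, |ch ρ g⁻¹| ≤ B := by
  classical
  have hbot : NumberField (⊥ : IntermediateField K (AlgebraicClosure K)) := by
    have : FiniteDimensional K (⊥ : IntermediateField K (AlgebraicClosure K)) := inferInstance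
    exact NumberField.of_module_finite K _
  obtain ⟨κ, _, L, hL, c, hc⟩ := Pool.Agent.Y707.RX.exists_comb_fix ρ hρ
    (⊥ : IntermediateField K (AlgebraicClosure K))
  refine ⟨∑ j : κ, |c j| * (Module.finrank ℚ (L j) : ℝ), fun g => ?_⟩
  have h1 : ch ρ g⁻¹ = ∑ j, c j * (fixn K (L j) g : ℝ) := by
    rw [← hc g, fixn_bot, Nat.cast_one, mul_one]
  rw [h1]
  refine (Finset.abs_sum_le_sum_abs _ _).trans (Finset.sum_le_sum fun j _ => ?_)
  rw [abs_mul, abs_of_nonneg (a := (fixn K (L j) g : ℝ)) (Nat.cast_nonneg _)]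
  exact mul_le_mul_of_nonneg_left (fixn_le (K := K) (F := L j) _) (abs_nonneg _)

theorem rank_bot (ρ : Representation ℚ (GK K) W) :
    rank ρ (⊥ : IntermediateField K (AlgebraicClosure K)) =
      Module.finrank ℚ (Representation.invariants ρ) := by
  unfold rank
  have h : Representation.invariants (ρ.comp
      (⊥ : IntermediateField K (AlgebraicClosure K)).fixingSubgroup.subtype) =
      Representation.invariants ρ := by
    ext x
    rw [Representation.mem_invariants, Representation.mem_invariants]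
    constructor
    · intro h g
      refine h ⟨g, ?_⟩
      rw [IntermediateField.mem_fixingSubgroup_iff]
      intro y hy
      obtain ⟨a, rfl⟩ := IntermediateField.mem_bot.1 hy
      exact g.commutes a
    · intro h g
      exact h g
  rw [h]

end

end Pool.Agent.Y88.QP
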