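import Mathlib
import Pool.Agent.Y88.QP.PDefs

/-! Rational structures and actions: linear algebra. -/

set_option autoImplicit false
set_option linter.unusedSectionVars false

namespace Pool.Agent.Y88.QP

section
variable {F : Type*} [Field F] {A : Type*} [AddCommGroup A] [Module F A] [Module.Finite F A]

theorem eigs_eq (ι : F →+* ℂ) {V : Submodule F A} {f : A →ₗ[F] A} (h : ∀ a ∈ V, f a ∈ V) :
    eigs ι V f = ((f.restrict h).charpoly.map ι).roots := by
  unfold eigs
  rw [dif_pos h]

theorem eigs_card (ι : F →+* ℂ) (V : Submodule F A) (f : A →ₗ[F] A) :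
    Multiset.card (eigs ι V f) ≤ Module.finrank F A := by
  by_cases h : ∀ a ∈ V, f a ∈ V
  · rw [eigs_eq ι h]
    refine (Polynomial.card_roots' _).trans (Polynomial.natDegree_map_le.trans ?_)
    rw [LinearMap.charpoly_natDegree]
    exact Submodule.finrank_le V
  · unfold eigs
    rw [dif_neg h]
    exact Nat.zero_le _

theorem eigs_sum (ι : F →+* ℂ) {V : Submodule F A} {f : A →ₗ[F] A} (h : ∀ a ∈ V, f a ∈ V) :
    (eigs ι V f).sum = ι (LinearMap.trace F V (f.restrict h)) := by
  classical
  rw [eigs_eq ι h]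
  set B := Module.finBasis F V with hB
  set M := LinearMap.toMatrix B B (f.restrict h) with hM
  have h1 : (f.restrict h).charpoly = M.charpoly := (LinearMap.charpoly_toMatrix _ B).symm
  rw [h1, ← Matrix.charpoly_map, ← Matrix.trace_eq_sum_roots_charpoly,
    LinearMap.trace_eq_matrix_trace F B, AddMonoidHom.map_trace ι]

/-- the trace from the images of the elements of a basis -/
theorem trace_of_basis {R M : Type*} [CommRing R] [AddCommGroup M] [Module R M] {n : ℕ}
    (B : Module.Basis (Fin n) R M) (f : M →ₗ[R] M) (m : Fin n → Fin n → R)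
    (h : ∀ i, f (B i) = ∑ k, m k i • B k) : LinearMap.trace R M f = ∑ i, m i i := by
  classical
  rw [LinearMap.trace_eq_matrix_trace R B, Matrix.trace]
  refine Finset.sum_congr rfl fun i _ => ?_
  rw [Matrix.diag_apply, LinearMap.toMatrix_apply, h, map_sum, Finsupp.coe_finsetSum,
    Finset.sum_apply, Finset.sum_eq_single i]
  · rw [map_smul, Finsupp.smul_apply, B.repr_self, Finsupp.single_eq_same, smul_eq_mul, mul_one]
  · intro k _ hk
    rw [map_smul, Finsupp.smul_apply, B.repr_self, Finsupp.single_eq_of_ne (Ne.symm hk), smul_zero]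
  · intro hi
    exact absurd (Finset.mem_univ i) hi

end

section
variable {F : Type*} [Field F] {A : Type*} [AddCommGroup A] [Module F A] [Module.Finite F A]
  [Module ℚ A]

theorem finite_of_cmp (C : Submodule ℚ A)
    (h : ∀ (n : ℕ) (c : Fin n → A), (∀ i, c i ∈ C) → LinearIndependent ℚ c →
      LinearIndependent F c) : Module.Finite ℚ C := by
  classical
  by_contra hne
  have h1 : (↑(Module.finrank F A + 1) : Cardinal) ≤ Module.rank ℚ C := by
    have h2 : ¬ Module.rank ℚ C < Cardinal.aleph0 := fun h3 =>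
      hne (Module.rank_lt_aleph0_iff.1 h3)
    exact (Cardinal.natCast_lt_aleph0).le.trans (not_lt.1 h2)
  obtain ⟨s, hs1, hs2⟩ := exists_finset_linearIndependent_of_le_rank h1
  have e : Fin (Module.finrank F A + 1) ≃ s := (Fintype.equivFinOfCardEq (by simpa using hs1)).symm
  have h3 : LinearIndependent ℚ fun i => ((e i : C) : A) :=
    (hs2.comp e e.injective).map' C.subtype C.ker_subtype
  have h4 := h _ _ (fun i => (e i : C).2) h3
  have h5 := h4.fintype_card_le_finrank
  rw [Fintype.card_fin] at h5
  omega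

end

section
variable {G H : Type*} [Group G] [Group H]

theorem exists_desc (π : G →* H) (hπ : Function.Surjective π) {M : Type*} [Monoid M] (τ : G →* M)
    (hk : ∀ g, π g = 1 → τ g = 1) : ∃ ρ : H →* M, ∀ g, ρ (π g) = τ g := by
  have key : ∀ g g', π g = π g' → τ g = τ g' := by
    intro g g' h
    have h1 : π (g'⁻¹ * g) = 1 := by rw [map_mul, map_inv, h, inv_mul_cancel]
    calc τ g = τ (g' * (g'⁻¹ * g)) := by rw [mul_inv_cancel_left]
      _ = τ g' * τ (g'⁻¹ * g) := map_mul _ _ _
      _ = τ g' := by rw [hk _ h1, mul_one]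
  refine ⟨{ toFun := fun h => τ (Function.surjInv hπ h), map_one' := ?_, map_mul' := ?_ }, ?_⟩
  · exact hk _ (Function.surjInv_eq hπ 1)
  · intro a b
    rw [← map_mul]
    refine key _ _ ?_
    rw [map_mul, Function.surjInv_eq hπ, Function.surjInv_eq hπ, Function.surjInv_eq hπ]
  · intro g
    exact key _ _ (Function.surjInv_eq hπ _)

variable {F : Type*} [Field F] [CharZero F] {A : Type*} [AddCommGroup A] [Module F A]
  [Module.Finite F A] [Module ℚ A] [IsScalarTower ℚ F A]

theorem rat_smul (q : ℚ) (a : A) : (q : F) • a = q • a := by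
  rw [← algebraMap_smul F q a, eq_ratCast]

/-- the action on a rational subspace -/
noncomputable def resAct (θ : G →* Module.End F A) (C : Submodule ℚ A)
    (hC : ∀ g, ∀ c ∈ C, θ g c ∈ C) : G →* Module.End ℚ C where
  toFun g := ((θ g).restrictScalars ℚ).restrict (hC g)
  map_one' := by
    apply LinearMap.ext
    intro c
    apply Subtype.ext
    change (θ 1) c = c
    rw [map_one]
    rfl
  map_mul' g g' := by
    apply LinearMap.ext
    intro c
    apply Subtype.ext
    change (θ (g * g')) c = (θ g) ((θ g') c)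
    rw [map_mul]
    rfl

theorem resAct_apply (θ : G →* Module.End F A) (C : Submodule ℚ A)
    (hC : ∀ g, ∀ c ∈ C, θ g c ∈ C) (g : G) (c : C) : ((resAct θ C hC g c : C) : A) = θ g c := rfl

/-- **The rational matrix representation.** -/
theorem rat_rep (π : G →* H) (hπ : Function.Surjective π) (θ : G →* Module.End F A)
    (C : Submodule ℚ A) (hcmp : ∀ (n : ℕ) (c : Fin n → A), (∀ i, c i ∈ C) →
      LinearIndependent ℚ c → LinearIndependent F c)
    (hC : ∀ g, ∀ c ∈ C, θ g c ∈ C) (hker : ∀ g, π g = 1 → ∀ c ∈ C, θ g c = c) :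
    ∃ (n : ℕ) (e : C ≃ₗ[ℚ] (Fin n → ℚ)) (ρ : Representation ℚ H (Fin n → ℚ)),
      (∀ g (c : C), ρ (π g) (e c) = e ⟨θ g c, hC g c c.2⟩) ∧
      ∀ g, ∀ h : (∀ a ∈ Submodule.span F (C : Set A), θ g a ∈ Submodule.span F (C : Set A)),
        LinearMap.trace F _ ((θ g).restrict h) =
          ((LinearMap.trace ℚ _ (ρ (π g)) : ℚ) : F) := by
  classical
  have hfin : Module.Finite ℚ C := finite_of_cmp C hcmp
  set b := Module.finBasis ℚ C with hb
  set τ := resAct θ C hC with hτ
  obtain ⟨τ', hτ'⟩ := exists_desc π hπ τ fun g hg => by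
    apply LinearMap.ext
    intro c
    apply Subtype.ext
    exact hker g hg c c.2
  set e := b.equivFun with he
  let ρ : Representation ℚ H (Fin (Module.finrank ℚ C) → ℚ) :=
    { toFun := fun h => e.conj (τ' h)
      map_one' := by rw [map_one]; exact LinearEquiv.conj_id e
      map_mul' := fun h h' => by rw [map_mul]; exact LinearEquiv.conj_comp e _ _ }
  have hρ : ∀ h, ρ h = e.conj (τ' h) := fun _ => rfl
  refine ⟨_, e, ρ, fun g c => ?_, fun g h => ?_⟩
  · rw [hρ, LinearEquiv.conj_apply_apply, LinearEquiv.symm_apply_apply, hτ']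
    rfl
  · rw [hρ, LinearMap.trace_conj', hτ']
    have hm : ∀ i, τ g (b i) = ∑ k, b.repr (τ g (b i)) k • b k := fun i =>
      (b.sum_repr _).symm
    rw [trace_of_basis b (τ g) (fun k i => b.repr (τ g (b i)) k) hm]
    -- the basis over `F`
    have hli : LinearIndependent F fun i => ((b i : C) : A) :=
      hcmp _ _ (fun i => (b i).2) (b.linearIndependent.map' C.subtype C.ker_subtype)
    let v : Fin (Module.finrank ℚ C) → Submodule.span F (C : Set A) := fun i =>
      ⟨b i, Submodule.subset_span (b i).2⟩
    have hv : LinearIndependent F v := by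
      refine LinearIndependent.of_comp (Submodule.subtype _) ?_
      exact hli
    have hsp : ⊤ ≤ Submodule.span F (Set.range v) := by
      rintro ⟨a, ha⟩ -
      induction ha using Submodule.span_induction with
      | mem c hc =>
        have h1 : (⟨c, Submodule.subset_span hc⟩ : Submodule.span F (C : Set A)) =
            ∑ i, ((b.repr ⟨c, hc⟩ i : ℚ) : F) • v i := by
          apply Subtype.ext
          have h2 := congrArg (Submodule.subtype C) (b.sum_repr ⟨c, hc⟩)
          rw [map_sum] at h2
          rw [AddSubmonoidClass.coe_finsetSum]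
          refine h2.symm.trans (Finset.sum_congr rfl fun i _ => ?_)
          rw [map_smul]
          exact (rat_smul (F := F) _ _).symm
        rw [h1]
        exact Submodule.sum_mem _ fun i _ => Submodule.smul_mem _ _
          (Submodule.subset_span ⟨i, rfl⟩)
      | zero => exact Submodule.zero_mem _
      | add x y hx hy h1 h2 => exact Submodule.add_mem _ h1 h2
      | smul r x hx h1 => exact Submodule.smul_mem _ r h1
    set B := Module.Basis.mk hv hsp with hB
    have hBi : ∀ i, B i = v i := fun i => Module.Basis.mk_apply hv hsp i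
    rw [trace_of_basis B ((θ g).restrict h) (fun k i => ((b.repr (τ g (b i)) k : ℚ) : F)) fun i => ?_]
    · push_cast
      rfl
    · apply Subtype.ext
      rw [hBi]
      change θ g (b i : A) = _
      have h2 := congrArg (Submodule.subtype C) (hm i)
      rw [map_sum] at h2
      rw [AddSubmonoidClass.coe_finsetSum]
      refine h2.trans (Finset.sum_congr rfl fun k _ => ?_)
      rw [map_smul, hBi]
      exact (rat_smul (F := F) _ _).symm

/-- invariants of the matrix representation -/
theorem finrank_inv {π : G →* H} (hπ : Function.Surjective π) {θ : G →* Module.End F A}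
    {C : Submodule ℚ A} {hC : ∀ g, ∀ c ∈ C, θ g c ∈ C} {n : ℕ} (e : C ≃ₗ[ℚ] (Fin n → ℚ))
    (ρ : Representation ℚ H (Fin n → ℚ))
    (he : ∀ g (c : C), ρ (π g) (e c) = e ⟨θ g c, hC g c c.2⟩) (Q : Submodule ℚ A)
    (hQ : ∀ c, c ∈ Q ↔ c ∈ C ∧ ∀ g, θ g c = c) :
    Module.finrank ℚ Q = Module.finrank ℚ (Representation.invariants ρ) := by
  have hQC : Q ≤ C := fun c hc => ((hQ c).1 hc).1
  let f : Q →ₗ[ℚ] (Fin n → ℚ) := e.toLinearMap ∘ₗ Submodule.inclusion hQC
  have hf : Function.Injective f := e.injective.comp (Submodule.inclusion_injective hQC)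
  have hr : LinearMap.range f = Representation.invariants ρ := by
    ext x
    rw [LinearMap.mem_range, Representation.mem_invariants]
    constructor
    · rintro ⟨c, rfl⟩ h
      obtain ⟨g, rfl⟩ := hπ h
      change ρ (π g) (e ⟨c, hQC c.2⟩) = e ⟨c, hQC c.2⟩
      rw [he]
      congr 1
      apply Subtype.ext
      exact ((hQ c).1 c.2).2 g
    · intro hx
      obtain ⟨c, rfl⟩ := e.surjective x
      refine ⟨⟨c, (hQ c).2 ⟨c.2, fun g => ?_⟩⟩, rfl⟩
      have h1 := hx (π g)
      rw [he] at h1
      exact congrArg Subtype.val (e.injective h1)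
  rw [← hr]
  exact (LinearEquiv.ofInjective f hf).finrank_eq

/-- the rank of a group which is a rational vector space -/
theorem finrank_int (Q : Submodule ℚ A) (s : Set A) (hs : s = (Q : Set A)) :
    Set.finrank ℤ s = Module.finrank ℚ Q := by
  subst hs
  unfold Set.finrank
  have h1 : (Submodule.span ℤ (Q : Set A)) = Q.restrictScalars ℤ := by
    have h2 : (Q : Set A) = (Q.restrictScalars ℤ : Set A) := rfl
    rw [h2, Submodule.span_eq]
  rw [h1]
  have h3 : Module.finrank ℚ (Q.restrictScalars ℤ) = Module.finrank ℤ (Q.restrictScalars ℤ) :=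
    IsFractionRing.finrank_right_eq ℤ (S := ℚ) (N := Q.restrictScalars ℤ)
  rw [← h3]
  rfl

end

end Pool.Agent.Y88.QP
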