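import Pool.Agent.Y88.QP.CDefs
import Pool.Agent.Y88.QP.Rat
import Pool.Agent.Y88.QP.Euler
import Pool.Agent.Y88.QP.Lim2
import Pool.Agent.Y127.NTower
import Pool.Agent.H914R2.CPart

/-!
# Poles of L-functions over finitely generated fields of characteristic zero
-/

open CategoryTheory AlgebraicGeometry NumberField IsDedekindDomain Filter Topology

set_option linter.unusedSectionVars false

universe u v w

namespace Pool.Agent.Y88.QP

open Pool.Agent.W401.Cheb
open Pool.Agent.W353.TD (ch rank)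
open Pool.Agent.H921R2.TatePole (nm two_le_nm)

section Alg

variable {F : Type u} [Field F] {Γ : Type w} [Group Γ] {K : Type} [Field K] [NumberField K]
  {χ : Γ →* Fˣ} {H : Coh.{u, v} F Γ} {j : ℕ}

theorem Coh.on_add (H : Coh.{u, v} F Γ) (g : Γ) (a b : H.A) : H.on g (a + b) = H.on g a + H.on g b :=
  map_add (H.act g) a b

theorem Coh.on_smul (H : Coh.{u, v} F Γ) (g : Γ) (r : F) (a : H.A) :
    H.on g (r • a) = r • H.on g a :=
  map_smul (H.act g) r a

theorem Coh.on_zero (H : Coh.{u, v} F Γ) (g : Γ) : H.on g 0 = 0 := map_zero (H.act g)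

theorem chi_ne (χ : Γ →* Fˣ) (g : Γ) (j : ℕ) : (χ g : F) ^ j ≠ 0 :=
  pow_ne_zero _ (Units.ne_zero _)

/-- the twisted action -/
noncomputable def tw (χ : Γ →* Fˣ) (H : Coh.{u, v} F Γ) (j : ℕ) : Γ →* Module.End F H.A where
  toFun g := ((χ g : F) ^ j)⁻¹ • H.lin g
  map_one' := by
    apply LinearMap.ext
    intro x
    rw [LinearMap.smul_apply, Coh.lin]
    simp
  map_mul' g g' := by
    apply LinearMap.ext
    intro x
    change ((χ (g * g') : F) ^ j)⁻¹ • H.act (g * g') x =
      ((χ g : F) ^ j)⁻¹ • H.act g (((χ g' : F) ^ j)⁻¹ • H.act g' x)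
    rw [map_smul, smul_smul, map_mul, map_mul, Units.val_mul, mul_pow, mul_inv,
      AlgEquiv.mul_apply]

theorem tw_apply (g : Γ) (a : H.A) : tw χ H j g a = ((χ g : F) ^ j)⁻¹ • H.on g a := rfl

theorem lin_apply (g : Γ) (a : H.A) : H.lin g a = H.on g a := rfl

theorem act_eq (g : Γ) : H.lin g = (χ g : F) ^ j • tw χ H j g := by
  apply LinearMap.ext
  intro a
  rw [LinearMap.smul_apply, tw_apply, smul_smul, mul_inv_cancel₀ (chi_ne χ g j), one_smul]
  rfl

theorem tw_fix (g : Γ) (a : H.A) : tw χ H j g a = a ↔ H.on g a = (χ g : F) ^ j • a := by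
  rw [tw_apply, inv_smul_eq_iff₀ (chi_ne χ g j)]

/-- the twisted action preserves the fixed classes of a normal subgroup -/
theorem tw_mem (hG : ∀ g, ∀ c ∈ H.cl j, ∃ c' ∈ H.cl j, H.on g c = (χ g : F) ^ j • c')
    {Δ : Subgroup Γ} [hn : Δ.Normal] (g : Γ) {c : H.A} (hc : c ∈ fixedClasses χ Δ H j) :
    tw χ H j g c ∈ fixedClasses χ Δ H j := by
  obtain ⟨h1, h2⟩ := hc
  constructor
  · obtain ⟨c', hc', h3⟩ := hG g c h1
    rw [tw_apply, h3, smul_smul, inv_mul_cancel₀ (chi_ne χ g j), one_smul]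
    exact hc'
  · intro h hh
    rw [← tw_fix]
    have h3 : g⁻¹ * h * g ∈ Δ := by
      have := hn.conj_mem h hh g⁻¹
      rwa [inv_inv] at this
    have h4 : h * g = g * (g⁻¹ * h * g) := by group
    calc tw χ H j h (tw χ H j g c) = tw χ H j (h * g) c := by rw [map_mul]; rfl
      _ = tw χ H j g (tw χ H j (g⁻¹ * h * g) c) := by rw [h4, map_mul]; rfl
      _ = tw χ H j g c := by rw [(tw_fix _ _).2 (h2 _ h3)]

variable [CharZero F]

/-- **The pole order from the geometric classes.** -/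
theorem pole_of_spanned {π : Γ →* GK K} {ι : F →+* ℂ} {U : Points K Γ} {D : ℕ}
    (hA : IsArith π χ) (hU : U.IsDim D) (hY : CycleAction π χ H j)
    (hP : DeligneBounds π χ ι U D H j) (hT : TateAt χ π.ker H j)
    (h0 : (0 : H.A) ∈ H.cl j) (hadd : ∀ a ∈ H.cl j, ∀ b ∈ H.cl j, a + b ∈ H.cl j)
    (hsmul : ∀ (q : ℚ), ∀ a ∈ H.cl j, (q : F) • a ∈ H.cl j) (hCV : ∀ a ∈ H.cl j, a ∈ H.gr (2 * j)) :
    PoleOrderIsRank χ ι U D H j := by
  classical
  have hG := fun g => hY.galois.cl_act g j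
  let _ : Module ℚ H.A := Module.compHom _ (algebraMap ℚ F)
  have : IsScalarTower ℚ F H.A := by
    refine ⟨fun q r a => ?_⟩
    change (q • r) • a = (algebraMap ℚ F q) • (r • a)
    have h : q • r = algebraMap ℚ F q * r := Algebra.smul_def q r
    rw [h, mul_smul]
  have hq : ∀ (q : ℚ) (a : H.A), q • a = (q : F) • a := fun q a => (rat_smul q a).symm
  have hsub : ∀ Δ : Subgroup Γ, ∃ C' : Submodule ℚ H.A,
      (C' : Set H.A) = fixedClasses χ Δ H j := fun Δ =>
    ⟨{ carrier := fixedClasses χ Δ H j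
       zero_mem' := ⟨h0, fun g _ => by rw [H.on_zero, smul_zero]⟩
       add_mem' := fun {a b} ha hb => ⟨hadd a ha.1 b hb.1, fun g hg => by
         rw [H.on_add, ha.2 g hg, hb.2 g hg, smul_add]⟩
       smul_mem' := fun q a ha => by
         rw [hq]
         exact ⟨hsmul q a ha.1, fun g hg => by rw [H.on_smul, ha.2 g hg, smul_comm]⟩ }, rfl⟩
  obtain ⟨C', hC⟩ := hsub π.ker
  obtain ⟨Q, hQ⟩ := hsub ⊤
  have hCm : ∀ c, c ∈ C' ↔ c ∈ fixedClasses χ π.ker H j := fun c => by
    have h : c ∈ C' ↔ c ∈ (C' : Set H.A) := Iff.rfl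
    rw [h, hC]
  have hQm : ∀ c, c ∈ Q ↔ c ∈ fixedClasses χ ⊤ H j := fun c => by
    have h : c ∈ Q ↔ c ∈ (Q : Set H.A) := Iff.rfl
    rw [h, hQ]
  have hspan : Submodule.span F (C' : Set H.A) = fixedPart χ π.ker H j := by
    rw [hC]
    exact le_antisymm (Submodule.span_mono fun c hc => ⟨hCV c hc.1, hc.2⟩) hT
  have hcmp : ∀ (n : ℕ) (c : Fin n → H.A), (∀ i, c i ∈ C') →
      LinearIndependent ℚ c → LinearIndependent F c := fun n c hc hli =>
    hY.indep n c (fun i => ((hCm _).1 (hc i)).1) (hli.restrict_scalars (fun a b h => by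
      simpa using h))
  have hCs : ∀ g, ∀ c ∈ C', tw χ H j g c ∈ C' := fun g c hc =>
    (hCm _).2 (tw_mem hG g ((hCm _).1 hc))
  obtain ⟨n, e, τ, he, htr⟩ := rat_rep π hA.surjective (tw χ H j) C' hcmp hCs
    (fun g hg c hc => (tw_fix g c).2 (((hCm _).1 hc).2 g hg))
  have hopen : ∃ V : Subgroup (GK K), IsOpen (V : Set (GK K)) ∧ ∀ u ∈ V, τ u = 1 := by
    have hc : ∀ i : Fin n, ((e.symm (Pi.single i 1) : C') : H.A) ∈ fixedClasses χ π.ker H j :=
      fun i => (hCm _).1 (e.symm (Pi.single i 1)).2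
    choose V hV1 hV2 using fun i : Fin n => hY.fix_open _ (hc i)
    refine ⟨⨅ i, V i, ?_, fun u hu => ?_⟩
    · rw [Subgroup.coe_iInf]
      exact isOpen_iInter_of_finite hV1
    · obtain ⟨g, rfl⟩ := hA.surjective u
      refine (Pi.basisFun ℚ (Fin n)).ext fun i => ?_
      rw [Pi.basisFun_apply]
      have h1 := he g (e.symm (Pi.single i 1))
      rw [e.apply_symm_apply] at h1
      have h2 : (⟨tw χ H j g (e.symm (Pi.single i 1) : C'), hCs g _ (e.symm (Pi.single i 1)).2⟩ :
          C') = e.symm (Pi.single i 1) :=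
        Subtype.ext ((tw_fix _ _).2 (hV2 i g (Subgroup.mem_iInf.1 hu i)))
      rw [h1, h2, e.apply_symm_apply]
      rfl
  have hrank : (rank τ (⊥ : IntermediateField K (AlgebraicClosure K)) : ℕ) =
      Set.finrank ℤ (fixedClasses χ ⊤ H j) := by
    rw [rank_bot, ← finrank_inv hA.surjective e τ he Q fun c => ?_]
    · exact (finrank_int Q _ hQ.symm).symm
    · rw [hQm, hCm]
      constructor
      · intro h
        exact ⟨⟨h.1, fun g _ => h.2 g (Subgroup.mem_top g)⟩,
          fun g => (tw_fix g c).2 (h.2 g (Subgroup.mem_top g))⟩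
      · intro h
        exact ⟨h.1.1, fun g _ => (tw_fix g c).1 (h.2 g)⟩
  choose σ hσ using Pool.Agent.W540.BE.exists_isFrob (F := K)
  choose gv hgv using fun v => hA.surjective (σ v)⁻¹
  obtain ⟨S1, hS1, hcyc⟩ := hA.cyclotomic
  obtain ⟨S2, Cc, hS2, hest⟩ := hP.points
  obtain ⟨B, hB⟩ := ch_bound τ hopen
  have hfr : ∀ v, IsFrob v (π (gv v))⁻¹ := fun v => by
    rw [hgv, inv_inv]
    exact hσ v
  have hsum : ∀ v, v ∉ S1 → (eigs ι (fixedPart χ π.ker H j) (H.lin (gv v))).sum =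
      (nm v : ℂ) ^ j * ((ch τ (σ v)⁻¹ : ℝ) : ℂ) := by
    intro v hv
    have hst : ∀ a ∈ Submodule.span F (C' : Set H.A),
        tw χ H j (gv v) a ∈ Submodule.span F (C' : Set H.A) := by
      intro a ha
      induction ha using Submodule.span_induction with
      | mem c hc => exact Submodule.subset_span (hCs _ _ hc)
      | zero => rw [map_zero]; exact Submodule.zero_mem _
      | add x y _ _ h1 h2 => rw [map_add]; exact Submodule.add_mem _ h1 h2
      | smul r x _ h1 => rw [map_smul]; exact Submodule.smul_mem _ r h1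
    have hst' : ∀ a ∈ Submodule.span F (C' : Set H.A),
        H.lin (gv v) a ∈ Submodule.span F (C' : Set H.A) := by
      intro a ha
      rw [act_eq (χ := χ) (j := j), LinearMap.smul_apply]
      exact Submodule.smul_mem _ _ (hst a ha)
    have h1 : (H.lin (gv v)).restrict hst' =
        (χ (gv v) : F) ^ j • (tw χ H j (gv v)).restrict hst := by
      apply LinearMap.ext
      intro a
      apply Subtype.ext
      change H.lin (gv v) a = (χ (gv v) : F) ^ j • tw χ H j (gv v) a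
      rw [act_eq (χ := χ) (j := j), LinearMap.smul_apply]
    rw [← hspan, eigs_sum ι hst', h1, map_smul, htr (gv v) hst, smul_eq_mul, map_mul, map_pow,
      map_ratCast, hcyc v hv (gv v) (hfr v), map_natCast, hgv]
    unfold ch nm
    push_cast
    rfl
  have hb : ∀ y, Multiset.card (frobEigs ι U H j y) ≤ Module.finrank F H.A :=
    fun y => eigs_card ι _ _
  have hw : ∀ y, ∀ z ∈ frobEigs ι U H j y, ‖z‖ ≤ (U.norm y : ℝ) ^ j :=
    fun y z hz => (hP.weight y z hz).le
  refine ⟨fun s hs => ?_, ?_⟩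
  · have h1 := (hasProd_factor hU hb hw (x := s - (j + D)) (by linarith)).multipliable
    rwa [add_sub_cancel] at h1
  · have hest' : ∀ v, v ∉ (hS1.union hS2).toFinset →
        ‖pointSum U (frobEigs ι U H j) v - (nm v : ℂ) ^ (j + D) * ((ch τ (σ v)⁻¹ : ℝ) : ℂ)‖ ≤
          Cc * (nm v : ℝ) ^ ((j + D : ℝ) - 1 / 2) := by
      intro v hv
      rw [Set.Finite.mem_toFinset, Set.mem_union, not_or] at hv
      have h1 := hest v hv.2 (gv v) (hfr v)
      rw [hsum v hv.1, ← mul_assoc] at h1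
      have h2 : (Ideal.absNorm v.asIdeal : ℂ) ^ D * (nm v : ℂ) ^ j = (nm v : ℂ) ^ (j + D) := by
        rw [pow_add, mul_comm]
        rfl
      rw [h2] at h1
      exact h1
    have hr : Cv fun x => PE (fun v => ch τ (σ v)⁻¹) x +
        ((Set.finrank ℤ (fixedClasses χ ⊤ H j) : ℕ) : ℝ) * Real.log (x - 1) := by
      rw [← hrank]
      exact ch_lim τ hopen σ hσ
    obtain ⟨c, hc, hlim⟩ := euler_lim hU hb hw (t := fun v => ch τ (σ v)⁻¹) (B := B)
      (fun v => hB (σ v)) _ hest' hr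
    refine ⟨c, hc, ?_⟩
    have h1 : Tendsto (fun s : ℝ => s - (j + D)) (𝓝[>] (j + D + 1 : ℝ)) (𝓝[>] 1) := by
      rw [tendsto_nhdsWithin_iff]
      constructor
      · have h2 : Tendsto (fun s : ℝ => s - (j + D)) (𝓝 (j + D + 1 : ℝ))
            (𝓝 ((j + D + 1 : ℝ) - (j + D))) := tendsto_id.sub_const _
        rw [add_sub_cancel_left] at h2
        exact h2.mono_left nhdsWithin_le_nhds
      · filter_upwards [self_mem_nhdsWithin] with s hs
        have hs' : (j + D + 1 : ℝ) < s := hs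
        rw [Set.mem_Ioi]
        linarith
    refine (hlim.comp h1).congr fun s => ?_
    rw [Function.comp_apply]
    unfold LFun
    rw [add_sub_cancel, sub_sub]

end Alg

open Pool.Agent.H914 Pool.Agent.H914.VarClass Pool.Agent.H914.VarClass.Obj
  Pool.Agent.H914.WeilCohomology

variable {k : Type u} [Field k] {𝒱 : VarClass k} {ops : CycleOps 𝒱}
  {W : WeilCohomology.{u, v} ops} {Γ : Type w} [Group Γ] {K : Type} [Field K] [NumberField K]
  {χ : Γ →* W.Kˣ} {Y : Var W Γ} {j : ℕ}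

/-- **The pole order from the geometric Tate property in one degree.** -/
theorem pole_of_tateAt {π : Γ →* GK K} {ι : W.K →+* ℂ} {U : Points K Γ} {D : ℕ}
    (hA : IsArith π χ) (hU : U.IsDim D) (hY : CycleAction π χ (coh Y) j)
    (hP : DeligneBounds π χ ι U D (coh Y) j) (hT : TateAt χ π.ker (coh Y) j) :
    PoleOrderIsRank χ ι U D (coh Y) j :=
  pole_of_spanned hA hU hY hP hT (alg_zero j) (fun _ ha _ hb => alg_add ha hb)
    (fun q _ ha => alg_smul q ha) (fun _ ha => alg_gr ha)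

end Pool.Agent.Y88.QP
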