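import Pool.Agent.Y88.QP.Main

/-!
# Towers of nodal families and the geometric Galois group
-/

open CategoryTheory AlgebraicGeometry NumberField IsDedekindDomain

set_option linter.unusedSectionVars false

universe u v w

namespace Pool.Agent.Y88.QP

open Pool.Agent.H914 Pool.Agent.H914.VarClass Pool.Agent.H914.VarClass.Obj
  Pool.Agent.H914.WeilCohomology Pool.Agent.TH125.Gal Pool.Agent.W401.Cheb

variable {k : Type u} [Field k] {𝒱 : VarClass k} {ops : CycleOps 𝒱}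
  {W : WeilCohomology.{u, v} ops} {Γ : Type w} [Group Γ] {χ : Γ →* W.Kˣ} {Y : Var W Γ}

/-- the variety with the action of a subgroup -/
def rs (Δ : Subgroup Γ) (Y : Var W Γ) : GVar W Δ := ⟨Y.X, Y.act.comp Δ.subtype⟩

section
variable {G : Type w} [Group G]

/-- subgroups of a subgroup -/
theorem finIn_map (Δ : Subgroup G) (N : Subgroup Δ) (hN : N.FiniteIndex) :
    FinIn (N.map Δ.subtype) Δ := by
  refine ⟨Subgroup.map_subtype_le N, ?_⟩
  have h : (N.map Δ.subtype).subgroupOf Δ = N :=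
    Subgroup.comap_map_eq_self_of_injective Δ.subtype_injective N
  rw [h]
  exact hN

end

theorem galoisType (Δ : Subgroup Γ) (h : IsGalois χ (coh Y)) :
    Pool.Agent.Y127.GaloisType (χ.comp Δ.subtype) (rs Δ Y) where
  gr_mem := fun g i a ha => h.gr_mem g i a ha
  tr_act := fun g a => h.tr_act g a
  cl_act := fun g j c hc => h.cl_act g j c hc
  cl_fix := fun j c hc => by
    obtain ⟨Δ', hΔ', h1⟩ := h.cl_fix j c hc
    have h2 : Δ'.FiniteIndex := by
      have h3 := hΔ'.2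
      have h4 : Δ'.index = (Δ'.subgroupOf ⊤).index := by
        rw [← Subgroup.relIndex, Subgroup.relIndex_top_right]
      exact ⟨by rw [h4]; exact h3.index_ne_zero⟩
    exact ⟨Δ'.subgroupOf Δ, inferInstance, fun g hg => h1 g hg⟩

theorem trans_eq (Y : Var W Γ) :
    Pool.Agent.H914.transcendental W Y.X = (transcendental (coh Y) : Submodule W.K (W.H Y.X)) := by
  have h1 : {a : W.H Y.X | ∀ j, ∀ c : W.H Y.X, (∃ z, Y.X.IsCyc j z ∧ W.cl Y.X z = c) →
      W.tr Y.X (a * c) = 0} = (Pool.Agent.H914.transcendental W Y.X : Set (W.H Y.X)) := by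
    ext a
    rw [SetLike.mem_coe]
    unfold Pool.Agent.H914.transcendental Pool.Agent.H914.orthCompl
    simp only [Submodule.mem_iInf, Set.mem_iUnion]
    constructor
    · rintro h c ⟨j, hc⟩
      exact h j c hc
    · intro h j c hc
      exact h c ⟨j, hc⟩
  symm
  change Submodule.span W.K {a : W.H Y.X | ∀ j, ∀ c : W.H Y.X,
    (∃ z, Y.X.IsCyc j z ∧ W.cl Y.X z = c) → W.tr Y.X (a * c) = 0} = _
  rw [h1, Submodule.span_eq]

theorem nodal {Δ : Subgroup Γ} {g : Γ} (h : Nodal χ Δ (coh Y) g) :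
    Pool.Agent.Y127.Nodal (χ.comp Δ.subtype) (rs Δ Y) ⟨g, h.mem.1⟩ where
  galois := galoisType Δ h.galois
  homEqNum := fun j hj z hz hw => by
    refine h.homEqNum j hj _ ⟨z, hz, rfl⟩ fun c' hc' => ?_
    obtain ⟨w, hw', rfl⟩ := hc'
    have h1 := hw w hw'
    have h2 : (W.tr Y.X) (W.cl Y.X z * W.cl Y.X w) = 0 := by
      rw [← W.isCompatible.cl_mul, (W.isCycleMap Y.X).tr_cl ?_]
      · have h5 : Y.X.V.degCycle (ops.mul z w) = 0 := h1
        rw [h5, Rat.cast_zero]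
      · have h4 : j + (Y.X.dim - j) = Y.X.dim := Nat.add_sub_cancel' hj
        have h3 : Y.X.IsCyc (j + (Y.X.dim - j)) (ops.mul z w) := ops.mul_mem hz hw'
        rwa [h4] at h3
    exact h2
  middle := by
    change Pool.Agent.H914.transcendental W Y.X ≤ _
    rw [trans_eq]
    exact h.middle
  irreducible := by
    change IrredAct (rs Δ Y).act (Pool.Agent.H914.transcendental W Y.X)
    rw [trans_eq]
    intro N hN V hV hs
    refine h.irreducible _ (finIn_map Δ N hN) V hV fun g' hg' a ha => ?_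
    obtain ⟨x, hx, rfl⟩ := hg'
    exact hs x hx a ha
  picardLefschetz := by
    change Pool.Agent.Y127.PLAll (W.tr Y.X) (Pool.Agent.H914.transcendental W Y.X) (rs Δ Y).act _
    rw [trans_eq]
    exact h.picardLefschetz

theorem plFamily {Δ : Subgroup Γ} {J : Type} {X : J → Var W Γ} {Z : Var W Γ} {g : J → Γ}
    (h : NodalFamily χ Δ (fun i => coh (X i)) (coh Z) g) :
    Pool.Agent.Y127.PLFamily (χ.comp Δ.subtype) (fun i => rs Δ (X i)) (rs Δ Z)
      (fun i => ⟨g i, (h.nodal i).mem.1⟩) where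
  nodal := fun i => nodal (h.nodal i)
  twist := fun i => (h.nodal i).mem.2
  triv_base := fun i a => h.triv_base i a
  triv_other := fun i j hj a => h.triv_other i j hj a
  few := h.few

theorem power_of {X P : 𝒱.Obj} {T : Set (P ⟶ X)} (h : IsPower X P T) :
    ∃ (n : ℕ) (e : power ops X n = P), ∀ i, eqToHom e.symm ≫ powerPrj ops X n i ∈ T := by
  induction h with
  | one =>
    refine ⟨0, rfl, fun i => ?_⟩
    change 𝟙 X ≫ powerPrj ops X 0 i ∈ ({𝟙 X} : Set (X ⟶ X))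
    rw [Category.id_comp]
    have h0 : i = 0 := Fin.ext (by have := i.2; omega)
    subst h0
    exact rfl
  | @succ P T _ ih =>
    obtain ⟨n, e, h1⟩ := ih
    subst e
    refine ⟨n + 1, rfl, fun i => ?_⟩
    change 𝟙 (X.prod (power ops X n)) ≫ powerPrj ops X (n + 1) i ∈ _
    rw [Category.id_comp]
    refine Fin.cases ?_ (fun i => ?_) i
    · exact Or.inl rfl
    · have h2 := h1 i
      rw [eqToHom_refl, Category.id_comp] at h2
      exact Or.inr ⟨_, h2, rfl⟩

theorem powProd' {Δ : Subgroup Γ} {X Z : Var W Γ} {n : ℕ} {Y0 : 𝒱.Obj}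
    (e : Y0 = (power ops X.X n).prod Z.X) : ∀ υ : Γ →* (W.H Y0 ≃ₐ[W.K] W.H Y0),
    (∀ p, Equivariant ⟨Y0, υ⟩ X (eqToHom e ≫ fst _ Z.X ≫ powerPrj ops X.X n p)) →
    Equivariant ⟨Y0, υ⟩ Z (eqToHom e ≫ snd _ Z.X) →
    IsPowProd (rs Δ X) n (rs Δ Z) (rs Δ ⟨Y0, υ⟩) := by
  subst e
  intro υ h1 h2
  refine IsPowProd.mk (X := rs Δ X) (Z := rs Δ Z) (υ.comp Δ.subtype) (fun p g a => ?_)
    (fun g a => ?_)
  · have h := h1 p g a
    rw [eqToHom_refl, Category.id_comp] at h
    exact h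
  · have h := h2 g a
    rw [eqToHom_refl, Category.id_comp] at h
    exact h

theorem powProd {Δ : Subgroup Γ} {X Z Y : Var W Γ} {P : 𝒱.Obj} {T : Set (P ⟶ X.X)}
    (hP : IsPower X.X P T) (e : Y.X = Obj.prod P Z.X)
    (h1 : ∀ p ∈ T, Equivariant Y X (eqToHom e ≫ fst P Z.X ≫ p))
    (h2 : Equivariant Y Z (eqToHom e ≫ snd P Z.X)) :
    ∃ n, IsPowProd (rs Δ X) n (rs Δ Z) (rs Δ Y) := by
  obtain ⟨n, e', h3⟩ := power_of (ops := ops) hP
  subst e'
  refine ⟨n, powProd' e Y.act (fun i => ?_) h2⟩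
  have h4 := h3 i
  rw [eqToHom_refl, Category.id_comp] at h4
  exact h1 _ h4

theorem restr_tower (Δ : Subgroup Γ) {J : Type} {X : J → Var W Γ} {Z : Var W Γ} {S : Set J}
    {Y : Var W Γ} (h : Tower X Z S Y) :
    Pool.Agent.Y127.LTower (fun i => rs Δ (X i)) (rs Δ Z) S S (rs Δ Y) := by
  induction h with
  | base => exact Pool.Agent.Y127.LTower.base
  | step i P T e _ hi hP h1 h2 ih =>
    obtain ⟨n, h3⟩ := powProd (Δ := Δ) hP e h1 h2
    exact Pool.Agent.Y127.LTower.large i n ih hi h3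

theorem tateAt_of_tower {Δ : Subgroup Γ} (hG : IsGalois χ (coh Y)) (h : NodalTower χ Δ Y) (j : ℕ) :
    TateAt χ Δ (coh Y) j := by
  obtain ⟨J, X, Z, g, S, hF, hZ, hT⟩ := h
  have hZ' : TateConjecture (χ.comp Δ.subtype) (rs Δ Z) := by
    rintro j c hc ⟨N, hN, h1⟩
    refine hZ j c hc _ (finIn_map Δ N hN) fun g' hg' => ?_
    obtain ⟨x, hx, rfl⟩ := hg'
    exact h1 x hx
  have h1 := (Pool.Agent.Y127.tate_over_iff (plFamily hF) (restr_tower Δ hT)
    (galoisType Δ hG)).2 hZ' ⊤ inferInstance (fun _ _ => Subgroup.mem_top _)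
  refine Submodule.span_le.2 fun c hc => ?_
  have h2 := h1 j c hc.1 (fun g _ => hc.2 g g.2)
  refine Submodule.span_mono ?_ h2
  rintro a ⟨ha, ha'⟩
  exact ⟨ha, fun g hg => ha' ⟨g, hg⟩ (Subgroup.mem_top _)⟩

end Pool.Agent.Y88.QP
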